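import Pool.Agent.K1H97.FC.Even
import Pool.Agent.K1H97.CU.Main

/-!
# The twists by products of primes: four Selmer classes
-/

set_option autoImplicit false

namespace Pool.Agent.K1H97.FC

open Finset
open Pool.Agent.Y676
open Pool.Agent.K1H97.CU
open Pool.Agent.W307.SE (Loc)
open Pool.Agent.W307.RT (Sh)
open Pool.Agent.TH841.SH (SelG LocC isR_Sh)
open Pool.Agent.W262.RK (dv sgn sg0)

/-- a class which is ramified only at the primes of the twist is trivial -/
theorem fin_triv {Y : ℕ} {A B : ℤ} {l l' : ℕ} {T : Finset ℕ} (hT : GF Y A B l l' T)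
    {T1 T2 : Finset ℕ} (sub1 : T1 ⊆ T) (sub2 : T2 ⊆ T) {f : ℤ × ℤ} (c1 : f.1 = pT T1)
    (c2 : f.2 = pT T2) (hf : InSel (pT T * A) (pT T * B) f) : f = (1, 1) := by
  have hTp := hT.pr
  have hemp : ∀ q ∈ T, q ∉ T1 ∧ q ∉ T2 := by
    intro q hq
    by_contra hcon
    have hqp := hTp q hq
    have : Fact q.Prime := ⟨hqp⟩
    have hqi : Prime (q : ℤ) := Nat.prime_iff_prime_int.1 hqp
    have hg := hT.gd q hq
    have hq8 := hg.m8
    have hq2 : q ≠ 2 := by omega
    have dA : ¬ (q : ℤ) ∣ A := fun h => hg.nd ((h.mul_right _).mul_right _)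
    have dB : ¬ (q : ℤ) ∣ B := fun h => hg.nd ((h.mul_left _).mul_right _)
    have dAB : ¬ (q : ℤ) ∣ A - B := fun h => hg.nd (h.mul_left _)
    have dBA : ¬ (q : ℤ) ∣ B - A := fun h => dAB (by
      have : A - B = -(B - A) := by ring
      rw [this]
      exact (dvd_neg).2 h)
    have nd : ∀ {u v : ℤ}, ¬ (q : ℤ) ∣ u → ¬ (q : ℤ) ∣ v → ¬ (q : ℤ) ∣ u * v := by
      intro u v hu hv h
      exact (hqi.dvd_or_dvd h).elim hu hv
    obtain ⟨d', hd'⟩ : ∃ d', d' = pT (T.erase q) := ⟨_, rfl⟩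
    have hd : pT T = q * d' := by rw [hd']; exact pT_erase hq
    have nd' : ¬ (q : ℤ) ∣ d' := by
      rw [hd']
      exact nd_pT (fun r hr => hTp r (mem_of_mem_erase hr)) hqp (notMem_erase q T)
    have hJ : ∀ S ⊆ T, jacobiSym (pT (S.erase q)) q = 1 := fun S hS => by
      rw [jac_prod _ q 1 fun r hr => hT.sy q hq r (hS (mem_of_mem_erase hr))
        (ne_of_mem_erase hr), one_pow]
    have Jd : jacobiSym d' q = 1 := by
      rw [hd']
      exact hJ T (Subset.refl _)
    have Jout : ∀ S ⊆ T, q ∉ S → jacobiSym (pT S) q = 1 := by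
      intro S hS hqS
      have h3 := hJ S hS
      rwa [erase_eq_of_notMem hqS] at h3
    have nin : ∀ S ⊆ T, ¬ (q : ℤ) ∣ pT (S.erase q) := fun S hS =>
      nd_pT (fun r hr => hTp r (hS (mem_of_mem_erase hr))) hqp (notMem_erase q S)
    have nout : ∀ S ⊆ T, q ∉ S → ¬ (q : ℤ) ∣ pT S := fun S hS hqS =>
      nd_pT (fun r hr => hTp r (hS hr)) hqp hqS
    have J1 : jacobiSym (-1) q = 1 := by
      rw [jacobiSym.at_neg_one (hqp.odd_of_ne_two hq2), ZMod.χ₄_nat_one_mod_four (by omega)]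
    have jA := hT.jA q hq
    have jB := hT.jB q hq
    have jC := hT.jC q hq
    have hlo := hf.lo q
    by_cases i1 : q ∈ T1 <;> by_cases i2 : q ∈ T2
    · have r := add_cls hq2 dA dB dAB hd nd' hlo true true
        (m1 := pT (T1.erase q) * d' * B) (m2 := pT (T2.erase q) * d' * (B - A))
        (by
          change f.1 * (pT T * B) = _
          rw [c1, pT_erase i1, hd]
          ring)
        (by
          change f.2 * (pT T * B - pT T * A) = _
          rw [c2, pT_erase i2, hd]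
          ring)
        (nd (nd (nin T1 sub1) nd') dB) (nd (nd (nin T2 sub2) nd') dBA)
      have r1 := r.1
      rw [jacobiSym.mul_left, jacobiSym.mul_left, Jd, hJ T1 sub1, jB] at r1
      norm_num at r1
    · have r := add_cls hq2 dA dB dAB hd nd' hlo true false
        (m1 := pT (T1.erase q) * d' * A) (m2 := f.2 * (d' * d') * (A * (A - B)))
        (by
          change f.1 * (pT T * A) = _
          rw [c1, pT_erase i1, hd]
          ring)
        (by
          change f.2 * (pT T * A * (pT T * A - pT T * B)) = _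
          rw [hd]
          ring)
        (nd (nd (nin T1 sub1) nd') dA)
        (nd (nd (by rw [c2]; exact nout T2 sub2 i2) (nd nd' nd')) (nd dA dAB))
      have r2 := r.2
      rw [jacobiSym.mul_left, jacobiSym.mul_left, jacobiSym.mul_left, jacobiSym.mul_left, Jd, c2,
        Jout T2 sub2 i2, jA, jC] at r2
      norm_num at r2
    · have r := add_cls hq2 dA dB dAB hd nd' hlo false true
        (m1 := f.1 * (d' * d') * (A * B)) (m2 := -1 * (pT (T2.erase q) * d' * A))
        (by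
          change f.1 * (pT T * A * (pT T * B)) = _
          rw [hd]
          ring)
        (by
          change f.2 * (-(pT T * A)) = _
          rw [c2, pT_erase i2, hd]
          ring)
        (nd (nd (by rw [c1]; exact nout T1 sub1 i1) (nd nd' nd')) (nd dA dB))
        (by
          have h5 := nd (nd (nin T2 sub2) nd') dA
          intro h6
          apply h5
          rw [neg_one_mul] at h6
          exact (dvd_neg).1 h6)
      have r1 := r.1
      rw [jacobiSym.mul_left, jacobiSym.mul_left, jacobiSym.mul_left, jacobiSym.mul_left, Jd, c1,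
        Jout T1 sub1 i1, jA, jB] at r1
      norm_num at r1
    · exact hcon ⟨i1, i2⟩
  have h5 : T1 = ∅ := by
    rw [eq_empty_iff_forall_notMem]
    exact fun q hq => (hemp q (sub1 hq)).1 hq
  have h6 : T2 = ∅ := by
    rw [eq_empty_iff_forall_notMem]
    exact fun q hq => (hemp q (sub2 hq)).2 hq
  have h7 : pT ∅ = 1 := by
    unfold pT
    simp
  rw [h5, h7] at c1
  rw [h6, h7] at c2
  exact Prod.ext c1 c2

/-- the divisibility by a prime of a product with a unit -/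
lemma dv_mul_unit {p : ℕ} (hp : p.Prime) {F g : ℤ} (hF : ¬ (p : ℤ) ∣ F) :
    dv p (F * g) = dv p g := (sgn_J (g := g) hp hF).1

/-- the valuations of three integers whose product is a square -/
lemma dv_three {p : ℕ} (hp : p.Prime) {n t g : ℤ} (hn : Squarefree n) (hg : Squarefree g)
    {b : Bool} (ht : if b then (∃ t', t = p * t' ∧ ¬ (p : ℤ) ∣ t') else ¬ (p : ℤ) ∣ t)
    (h : IsSquare (n * t * g)) : dv p g = xor (dv p n) b := by
  have hpi : Prime (p : ℤ) := Nat.prime_iff_prime_int.1 hp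
  obtain ⟨k, u, hk, hdv, hu, hn', -⟩ := rep_sqf hp hn
  have nd : ∀ {u v : ℤ}, ¬ (p : ℤ) ∣ u → ¬ (p : ℤ) ∣ v → ¬ (p : ℤ) ∣ u * v := by
    intro u v hu hv h
    exact (hpi.dvd_or_dvd h).elim hu hv
  rw [hdv]
  interval_cases k
  · rw [pow_zero, one_mul] at hn'
    cases b
    · simp only [Bool.false_eq_true, if_false] at ht
      rw [dv_sq_even hp (t := n * t) (nd (by rw [hn']; exact hu) ht) hg h]
      decide
    · simp only [if_true] at ht
      obtain ⟨t', e, ht'⟩ := ht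
      rw [dv_sq_odd hp (t := n * t) (t' := u * t') (by rw [hn', e]; ring) (nd hu ht') hg h]
      decide
  · rw [pow_one] at hn'
    cases b
    · simp only [Bool.false_eq_true, if_false] at ht
      rw [dv_sq_odd hp (t := n * t) (t' := u * t) (by rw [hn']; ring) (nd hu ht) hg h]
      decide
    · simp only [if_true] at ht
      obtain ⟨t', e, ht'⟩ := ht
      have h1 : dv p g = false := by
        unfold dv
        rw [decide_eq_false_iff_not]
        refine nd_of_sq hpi (nd hu ht') hg ?_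
        have e5 : n * t * g = (p : ℤ) ^ 2 * (u * t') * g := by rw [hn', e]; ring
        rwa [← e5]
      rw [h1]
      decide

/-- **the Selmer classes of the twist by an even number of primes are the classes of the torsion
points** -/
theorem selE_cls {Y : ℕ} {A B : ℤ} {l l' : ℕ} (h : Mn Y A B l l') {T : Finset ℕ}
    (hT : GF Y A B l l' T) (hev : Even T.card) {e : ℤ × ℤ} (he : InSel (pT T * A) (pT T * B) e) :
    IsSquare (e.1 * (TT (pT T * A) (pT T * B) (dv l' e.2) (dv l e.1)).1) ∧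
    IsSquare (e.2 * (TT (pT T * A) (pT T * B) (dv l' e.2) (dv l e.1)).2) := by
  have hTp := hT.pr
  have hd := pT_ne hTp
  have hlT : ¬ (l : ℤ) ∣ pT T := nd_pT hTp h.pl (fun hh => (hT.gd l hh).nd h.lN)
  have hlT' : ¬ (l' : ℤ) ∣ pT T := nd_pT hTp h.pl' (fun hh => (hT.gd l' hh).nd h.l'N)
  have hli : Prime (l : ℤ) := Nat.prime_iff_prime_int.1 h.pl
  have hli' : Prime (l' : ℤ) := Nat.prime_iff_prime_int.1 h.pl'
  have nd : ∀ {u v : ℤ}, ¬ (l : ℤ) ∣ u → ¬ (l : ℤ) ∣ v → ¬ (l : ℤ) ∣ u * v := by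
    intro u v hu hv h
    exact (hli.dvd_or_dvd h).elim hu hv
  have nd' : ∀ {u v : ℤ}, ¬ (l' : ℤ) ∣ u → ¬ (l' : ℤ) ∣ v → ¬ (l' : ℤ) ∣ u * v := by
    intro u v hu hv h
    exact (hli'.dvd_or_dvd h).elim hu hv
  have e3 : pT T * A - pT T * B ≠ 0 := by
    rw [← mul_sub]
    exact mul_ne_zero hd h.C0
  obtain ⟨v, hv⟩ : ∃ v, v = dv l' e.2 := ⟨_, rfl⟩
  obtain ⟨w, hw⟩ : ∃ w, w = dv l e.1 := ⟨_, rfl⟩
  rw [← hv, ← hw]
  obtain ⟨f, hf, s1, s2⟩ := sel_TT (mul_ne_zero hd h.A0) (mul_ne_zero hd h.B0) e3 he v w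
  obtain ⟨B', hB', hB⟩ := h.lex
  obtain ⟨C', hC', hC⟩ := h.l'ex
  have k1 : dv l f.1 = false := by
    rw [dv_three h.pl he.sq1 hf.sq1 (b := w) ?_ s1, ← hw, Bool.xor_self]
    unfold TT
    cases v <;> cases w
    · exact fun hd => hli.not_isUnit (isUnit_of_dvd_one hd)
    · refine ⟨(pT T * A) * (pT T * B'), ?_, nd (nd hlT h.lA) (nd hlT hB)⟩
      change pT T * A * (pT T * B) = _
      rw [hB']
      ring
    · exact nd hlT h.lA
    · refine ⟨pT T * B', ?_, nd hlT hB⟩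
      change pT T * B = _
      rw [hB']
      ring
  have k2 : dv l' f.2 = false := by
    rw [dv_three h.pl' he.sq2 hf.sq2 (b := v) ?_ s2, ← hv, Bool.xor_self]
    unfold TT
    cases v <;> cases w
    · exact fun hd => hli'.not_isUnit (isUnit_of_dvd_one hd)
    · exact fun hd => nd' hlT' h.l'A ((dvd_neg).1 hd)
    · refine ⟨(pT T * A) * (pT T * C'), ?_, nd' (nd' hlT' h.l'A) (nd' hlT' hC)⟩
      change pT T * A * (pT T * A - pT T * B) = _
      linear_combination (pT T * A) * pT T * hC'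
    · refine ⟨-(pT T * C'), ?_, fun hd => nd' hlT' hC ((dvd_neg).1 hd)⟩
      change pT T * B - pT T * A = _
      linear_combination -(pT T) * hC'
  -- the class `f` is trivial
  obtain ⟨g1, e1, sq1, n1⟩ := split T hTp hf.sq1
  obtain ⟨g2, e2, sq2, n2⟩ := split T hTp hf.sq2
  have hG := core_even h hT hev hf rfl rfl e1 e2 sq1 sq2 n1 n2
  obtain ⟨T1, hT1⟩ : ∃ T1, T1 = T.filter (fun q : ℕ => (q : ℤ) ∣ f.1) := ⟨_, rfl⟩
  obtain ⟨T2, hT2⟩ : ∃ T2, T2 = T.filter (fun q : ℕ => (q : ℤ) ∣ f.2) := ⟨_, rfl⟩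
  rw [← hT1] at e1
  rw [← hT2] at e2
  have sub1 : T1 ⊆ T := by rw [hT1]; exact filter_subset _ _
  have sub2 : T2 ⊆ T := by rw [hT2]; exact filter_subset _ _
  have z1 : dv l g1 = false := by
    rw [← k1, e1, dv_mul_unit h.pl]
    exact nd_pT (fun q hq => hTp q (sub1 hq)) h.pl (fun hh => (hT.gd l (sub1 hh)).nd h.lN)
  have z2 : dv l' g2 = false := by
    rw [← k2, e2, dv_mul_unit h.pl']
    exact nd_pT (fun q hq => hTp q (sub2 hq)) h.pl' (fun hh => (hT.gd l' (sub2 hh)).nd h.l'N)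
  have dv1 : ∀ p : ℕ, p.Prime → dv p 1 = false := by
    intro p hp
    unfold dv
    rw [decide_eq_false_iff_not]
    exact fun hd => (Nat.prime_iff_prime_int.1 hp).not_isUnit (isUnit_of_dvd_one hd)
  have hg := h.inj hG (one_sel A B) (by rw [dv1 l h.pl]; exact z1) (by rw [dv1 l' h.pl']; exact z2)
  rw [Prod.mk.injEq] at hg
  rw [hg.1, mul_one] at e1
  rw [hg.2, mul_one] at e2
  have h11 := fin_triv hT sub1 sub2 e1 e2 hf
  rw [h11] at s1 s2
  simp only [mul_one] at s1 s2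
  exact ⟨s1, s2⟩

/-- **at most four Selmer classes** -/
theorem selF_card {Y : ℕ} {A B : ℤ} {l l' : ℕ} (h : Mn Y A B l l') {T : Finset ℕ}
    (hT : GF Y A B l l' T) : {e | InSel (pT T * A) (pT T * B) e}.Finite ∧
      {e | InSel (pT T * A) (pT T * B) e}.ncard ≤ 4 := by
  have hY2 : 2 ≤ Y := by have := h.hY; omega
  rcases Nat.even_or_odd T.card with hev | hod
  swap
  · exact selT_card hY2 h.ty h.flip (hT.odd hod)
  have hTp := hT.pr
  have hd := pT_ne hTp
  have hA : pT T * A ≠ 0 := mul_ne_zero hd h.A0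
  have hB : pT T * B ≠ 0 := mul_ne_zero hd h.B0
  have hAB : pT T * A - pT T * B ≠ 0 := by
    rw [← mul_sub]
    exact mul_ne_zero hd h.C0
  have hBA : pT T * B - pT T * A ≠ 0 := fun h => hAB (by omega)
  have ht : ∀ v w, (TT (pT T * A) (pT T * B) v w).1 ≠ 0 ∧
      (TT (pT T * A) (pT T * B) v w).2 ≠ 0 := by
    intro v w
    unfold TT
    cases v <;> cases w
    · exact ⟨one_ne_zero, one_ne_zero⟩
    · exact ⟨mul_ne_zero hA hB, neg_ne_zero.2 hA⟩
    · exact ⟨hA, mul_ne_zero hA hAB⟩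
    · exact ⟨hB, hBA⟩
  have hinj : Set.InjOn (fun e : ℤ × ℤ => (dv l' e.2, dv l e.1))
      {e | InSel (pT T * A) (pT T * B) e} := by
    intro e he f hf hef
    simp only [Prod.mk.injEq] at hef
    obtain ⟨a1, a2⟩ := selE_cls h hT hev he
    obtain ⟨b1, b2⟩ := selE_cls h hT hev hf
    rw [← hef.1, ← hef.2] at b1 b2
    obtain ⟨t1, t2⟩ := ht (dv l' e.2) (dv l e.1)
    have hsq : ∀ {u v t : ℤ}, t ≠ 0 → IsSquare (u * t) → IsSquare (v * t) →
        IsSquare ((u : ℚ) * v) := by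
      intro u v t ht0 h1 h2
      have ht0' : (t : ℚ) ≠ 0 := by exact_mod_cast ht0
      refine sq_mul_trans ht0' ?_ ?_
      · have := h1.map (Int.castRingHom ℚ)
        simpa using this
      · have := h2.map (Int.castRingHom ℚ)
        rw [mul_comm]
        simpa using this
    exact Prod.ext (Pool.Agent.W839.SH.sqf_eq he.sq1 hf.sq1 (hsq t1 a1 b1))
      (Pool.Agent.W839.SH.sqf_eq he.sq2 hf.sq2 (hsq t2 a2 b2))
  have hfin : {e | InSel (pT T * A) (pT T * B) e}.Finite :=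
    Set.Finite.of_finite_image (Set.toFinite _) hinj
  refine ⟨hfin, ?_⟩
  rw [← hinj.ncard_image]
  refine (Set.ncard_le_ncard (Set.subset_univ _) (Set.toFinite _)).trans ?_
  rw [Set.ncard_univ, Nat.card_eq_fintype_card]
  decide

/-- **The twist by a nonempty set of primes.** -/
theorem tw_full {c : ℤ × ℤ} {e1 e2 e3 : ℤ}
    (hr : ∀ x : ℤ, x ^ 3 + c.1 * x + c.2 = (x - e1) * (x - e2) * (x - e3)) {Y l l' : ℕ}
    (h : Mn Y (e2 - e1) (e3 - e1) l l') {T : Finset ℕ} (hT : GF Y (e2 - e1) (e3 - e1) l l' T)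
    (hne : T.Nonempty) : Tv (Sh ((pT T) ^ 2 * c.1) ((pT T) ^ 3 * c.2)) := by
  obtain ⟨A, hA⟩ : ∃ A, A = e2 - e1 := ⟨_, rfl⟩
  obtain ⟨B, hB⟩ : ∃ B, B = e3 - e1 := ⟨_, rfl⟩
  rw [← hA, ← hB] at h hT
  have hTp := hT.pr
  obtain ⟨q, hq⟩ := hne
  have hqp := hTp q hq
  have hqi : Prime (q : ℤ) := Nat.prime_iff_prime_int.1 hqp
  have hnd := (hT.gd q hq).nd
  have dA : ¬ (q : ℤ) ∣ A := fun h => hnd ((h.mul_right _).mul_right _)
  have dB : ¬ (q : ℤ) ∣ B := fun h => hnd ((h.mul_left _).mul_right _)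
  have hA0 := h.A0
  have hB0 := h.B0
  have hAB0 := h.C0
  have hd0 := pT_ne hTp
  have hd := pT_erase hq
  have nd' : ¬ (q : ℤ) ∣ pT (T.erase q) :=
    nd_pT (fun r hr => hTp r (mem_of_mem_erase hr)) hqp (notMem_erase q T)
  have nd : ∀ {u v : ℤ}, ¬ (q : ℤ) ∣ u → ¬ (q : ℤ) ∣ v → ¬ (q : ℤ) ∣ u * v := by
    intro u v hu hv h
    exact (hqi.dvd_or_dvd h).elim hu hv
  have hr' := roots_tw hr (pT T)
  have hR := isR_Sh hr'
  have hsub : SelG (pT T * e1) (pT T * e2) (pT T * e3) ⊆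
      {e | InSel (pT T * A) (pT T * B) e} := by
    rintro e ⟨k1, k2, k3, k4⟩
    have ea : pT T * A = pT T * e2 - pT T * e1 := by rw [hA]; ring
    have eb : pT T * B = pT T * e3 - pT T * e1 := by rw [hB]; ring
    refine ⟨k1, k2, ?_, fun p _ => ?_⟩
    · rw [ea, eb]
      exact loc_of_locC k3
    · rw [ea, eb]
      exact loc_of_locC (k4 p)
  obtain ⟨hfin, hcard⟩ := selF_card h hT
  have n12 : pT T * e1 ≠ pT T * e2 := fun h => hA0 (by
    rw [hA]; exact sub_eq_zero.2 (mul_left_cancel₀ hd0 h).symm)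
  have n13 : pT T * e1 ≠ pT T * e3 := fun h => hB0 (by
    rw [hB]; exact sub_eq_zero.2 (mul_left_cancel₀ hd0 h).symm)
  have n23 : pT T * e2 ≠ pT T * e3 := fun h => hAB0 (by
    have := mul_left_cancel₀ hd0 h
    rw [hA, hB, this]
    ring)
  obtain ⟨g1, g2⟩ := sha4 (Sh ((pT T) ^ 2 * c.1) ((pT T) ^ 3 * c.2)) (pT T * e1) (pT T * e2)
    (pT T * e3) (by exact_mod_cast hR) n12 n13 n23
    (hfin.subset hsub) ((Set.ncard_le_ncard hsub hfin).trans hcard)
    (by
      have e : ((pT T * e1 : ℤ) : ℚ) - ((pT T * e2 : ℤ) : ℚ) =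
          ((q * (-(pT (T.erase q) * A)) : ℤ) : ℚ) := by
        rw [hA, hd]; push_cast; ring
      rw [e]
      exact nsq hqp (fun h => nd nd' dA ((dvd_neg).1 h)))
    (by
      have e : ((pT T * e2 : ℤ) : ℚ) - ((pT T * e1 : ℤ) : ℚ) =
          ((q * (pT (T.erase q) * A) : ℤ) : ℚ) := by
        rw [hA, hd]; push_cast; ring
      rw [e]
      exact nsq hqp (nd nd' dA))
    (by
      have e : ((pT T * e3 : ℤ) : ℚ) - ((pT T * e1 : ℤ) : ℚ) =
          ((q * (pT (T.erase q) * B) : ℤ) : ℚ) := by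
        rw [hB, hd]; push_cast; ring
      rw [e]
      exact nsq hqp (nd nd' dB))
  refine ⟨fin_R (a := pT T * e1) (b := pT T * e2) (c := pT T * e3) (by exact_mod_cast hR)
    n12 n13 n23 g1, fun x hx => ?_⟩
  have h5 : (2 ^ 1) • x = 0 := by
    rw [pow_one, two_nsmul]
    exact hx
  exact congrArg Subtype.val ((sub_tor g2 1).elim ⟨x, h5⟩ ⟨0, smul_zero _⟩)

end Pool.Agent.K1H97.FC
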