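import Pool.Agent.K1H97.FC.Card
import Pool.Agent.K1H97.CU.Dir

/-!
# The infinite set of primes
-/

set_option autoImplicit false

namespace Pool.Agent.K1H97.FC

open Finset
open Pool.Agent.Y676
open Pool.Agent.K1H97.CU
open Pool.Agent.W262.RK (dv sgn sg0)

/-- the symbol of a product of primes that are squares -/
lemma jac_all {q : ℕ} (h8 : q % 8 = 1) : ∀ n : ℕ, n ≠ 0 →
    (∀ p : ℕ, p.Prime → p ≠ 2 → p ∣ n → jacobiSym (q : ℤ) p = 1) → jacobiSym (n : ℤ) q = 1 := by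
  intro n
  induction n using induction_on_primes with
  | zero => intro h; exact absurd rfl h
  | one => intro _ _; rw [Nat.cast_one, jacobiSym.one_left]
  | prime_mul p n hp ih =>
    intro hn h
    have hn0 : n ≠ 0 := right_ne_zero_of_mul hn
    rw [Nat.cast_mul, jacobiSym.mul_left, ih hn0 fun r hr hr2 hrn => h r hr hr2 (hrn.mul_left _),
      mul_one]
    have hodd : Odd q := Nat.odd_iff.2 (by omega)
    by_cases hp2 : p = 2
    · subst hp2
      rw [Nat.cast_ofNat, jacobiSym.at_two hodd, ZMod.χ₈_nat_eq_if_mod_eight]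
      rw [if_neg (by omega), if_pos (Or.inl h8)]
    · have h1 := h p hp hp2 (dvd_mul_right _ _)
      have h2 := jacobiSym.quadratic_reciprocity_one_mod_four (a := q) (b := p) (by omega)
        (hp.odd_of_ne_two hp2)
      rw [← h2]
      exact h1

lemma jac_int {q : ℕ} (h8 : q % 8 = 1) {A : ℤ} (hA : A ≠ 0)
    (h : ∀ p : ℕ, p.Prime → p ≠ 2 → (p : ℤ) ∣ A → jacobiSym (q : ℤ) p = 1) :
    jacobiSym A q = 1 := by
  have hodd : Odd q := Nat.odd_iff.2 (by omega)
  have h1 := jac_all h8 A.natAbs (Int.natAbs_ne_zero.2 hA) fun p hp hp2 hd =>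
    h p hp hp2 (Int.natCast_dvd.2 hd)
  rcases Int.natAbs_eq A with h2 | h2
  · rw [h2]
    exact h1
  · rw [h2, ← neg_one_mul, jacobiSym.mul_left, h1, mul_one, jacobiSym.at_neg_one hodd,
      ZMod.χ₄_nat_one_mod_four (by omega)]

/-- the first prime -/
theorem exists_first {Y : ℕ} {A B : ℤ} {l l' : ℕ} (h : Mn Y A B l l') (m : ℕ) (hm : m ≤ Y)
    (hm0 : 0 < m) : ∃ q : ℕ, GoodQ Y A B (fl A B l l') q ∧ q % m = 1 % m ∧
      jacobiSym A q = 1 ∧ jacobiSym B q = -1 ∧ jacobiSym (A - B) q = -1 := by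
  classical
  obtain ⟨N, hN⟩ : ∃ N : ℕ, N = (A * B * (A - B)).natAbs := ⟨_, rfl⟩
  have hN0 : N ≠ 0 := by rw [hN]; exact Int.natAbs_ne_zero.2 h.nz
  obtain ⟨S, hS⟩ : ∃ S : Finset ℕ, S = N.primeFactors.filter (fun p => Y < p ∧ p ≠ l ∧ p ≠ l') :=
    ⟨_, rfl⟩
  have hSm : ∀ p, p ∈ S ↔ p.Prime ∧ (p : ℤ) ∣ A * B * (A - B) ∧ Y < p ∧ p ≠ l ∧ p ≠ l' := by
    intro p
    rw [hS, mem_filter, Nat.mem_primeFactors, hN, Int.natCast_dvd]
    constructor
    · rintro ⟨⟨a, b, -⟩, c⟩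
      exact ⟨a, b, c⟩
    · rintro ⟨a, b, c⟩
      exact ⟨⟨a, b, by rw [← hN]; exact hN0⟩, c⟩
  have hY7 := h.hY
  obtain ⟨M, hM⟩ : ∃ M : ℕ, M = 8 * Y.factorial := ⟨_, rfl⟩
  have hM0 : 0 < M := by
    rw [hM]
    have := Nat.factorial_pos Y
    positivity
  have hcp : ∀ p : ℕ, p.Prime → Y < p → p.Coprime M := by
    intro p hp hYp
    rw [hp.coprime_iff_not_dvd, hM]
    intro hd
    rcases (hp.dvd_mul).1 hd with hd | hd
    · have h1 : p ∣ 2 ^ 3 := by exact_mod_cast hd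
      have h2 := (Nat.prime_dvd_prime_iff_eq hp Nat.prime_two).1 (hp.dvd_of_dvd_pow h1)
      omega
    · have := (hp.dvd_factorial).1 hd
      omega
  obtain ⟨q₁, -, q1p, q1m, q1s⟩ := exists_prime hM0 (Nat.coprime_one_left M)
    (x := 1) (Or.inl rfl) S (fun r hr => by
      obtain ⟨a, b, c, -, -⟩ := (hSm r).1 hr
      exact ⟨a, by omega, hcp r a c⟩) (N + l + l')
  have q1b : q₁ ∉ S ∧ True := ⟨fun hq => by
    have h5 := q1s q₁ hq
    have h6 : jacobiSym (q₁ : ℤ) q₁ = 0 := by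
      have : NeZero q₁ := ⟨q1p.ne_zero⟩
      rw [jacobiSym.eq_zero_iff_not_coprime]
      simp [q1p.ne_one]
    rw [h6] at h5
    norm_num at h5, trivial⟩
  obtain ⟨M', hM'⟩ : ∃ M' : ℕ, M' = M * ∏ p ∈ S, p := ⟨_, rfl⟩
  have hM'0 : 0 < M' := by
    rw [hM']
    exact Nat.mul_pos hM0 (prod_pos fun r hr => ((hSm r).1 hr).1.pos)
  have q1c : q₁.Coprime M' := by
    rw [hM']
    apply Nat.Coprime.mul_right
    · unfold Nat.Coprime
      rw [q1m.gcd_eq, Nat.gcd_one_left]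
    · exact Nat.Coprime.prod_right fun r hr => (Nat.coprime_primes q1p ((hSm r).1 hr).1).2
        (fun h => q1b.1 (h ▸ hr))
  have hcp' : ∀ p : ℕ, p.Prime → Y < p → p ∉ S → p.Coprime M' := by
    intro p hp hYp hpS
    rw [hM']
    refine Nat.Coprime.mul_right (hcp p hp hYp) ?_
    exact Nat.Coprime.prod_right fun r hr => (Nat.coprime_primes hp ((hSm r).1 hr).1).2
        (fun h => hpS (h ▸ hr))
  obtain ⟨q, qb, qp, qm, qs⟩ := exists_prime hM'0 q1c (x := -1) (Or.inr rfl) {l, l'}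
    (fun r hr => by
      rw [mem_insert, mem_singleton] at hr
      rcases hr with rfl | rfl
      · exact ⟨h.pl, by have := h.Yl; omega, hcp' r h.pl h.Yl fun hh => ((hSm r).1 hh).2.2.2.1 rfl⟩
      · exact ⟨h.pl', by have := h.Yl'; omega,
          hcp' r h.pl' h.Yl' fun hh => ((hSm r).1 hh).2.2.2.2 rfl⟩) (N + l + l')
  have qM : q ≡ 1 [MOD M] := (qm.of_dvd (by rw [hM']; exact dvd_mul_right _ _)).trans q1m
  have q8 : q % 8 = 1 := by
    have : q ≡ 1 [MOD 8] := qM.of_dvd (by rw [hM]; exact dvd_mul_right _ _)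
    exact this
  have jmod : ∀ {p a b : ℕ}, a ≡ b [MOD p] → jacobiSym (a : ℤ) p = jacobiSym (b : ℤ) p := by
    intro p a b hab
    have h1 : (a : ℤ) % (p : ℤ) = (b : ℤ) % (p : ℤ) := by exact_mod_cast hab
    rw [jacobiSym.mod_left, h1, ← jacobiSym.mod_left]
  -- the symbols
  have sy1 : ∀ p : ℕ, p.Prime → p ≠ 2 → p ≤ Y → jacobiSym (q : ℤ) p = 1 := by
    intro p hp _ hpY
    have : q ≡ 1 [MOD p] := qM.of_dvd (by
      rw [hM]
      exact ((hp.dvd_factorial).2 hpY).mul_left _)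
    rw [jmod this, Nat.cast_one, jacobiSym.one_left]
  have sy2 : ∀ p ∈ S, jacobiSym (q : ℤ) p = 1 := by
    intro p hp
    have : q ≡ q₁ [MOD p] := qm.of_dvd (by
      rw [hM']
      exact (dvd_prod_of_mem _ hp).mul_left _)
    rw [jmod this]
    exact q1s p hp
  have syl : jacobiSym (q : ℤ) l = -1 := qs l (by simp)
  have syl' : jacobiSym (q : ℤ) l' = -1 := qs l' (by simp)
  have sy3 : ∀ p : ℕ, p.Prime → p ≠ 2 → (p : ℤ) ∣ A * B * (A - B) → p ≠ l → p ≠ l' →
      jacobiSym (q : ℤ) p = 1 := by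
    intro p hp hp2 hpN hpl hpl'
    by_cases hpY : p ≤ Y
    · exact sy1 p hp hp2 hpY
    · exact sy2 p ((hSm p).2 ⟨hp, hpN, by omega, hpl, hpl'⟩)
  have hnd : ¬ (q : ℤ) ∣ A * B * (A - B) := by
    intro hd
    rw [Int.natCast_dvd, ← hN] at hd
    have := Nat.le_of_dvd (Nat.pos_of_ne_zero hN0) hd
    omega
  refine ⟨q, ⟨qp, q8, sy1, hnd, ?_⟩, ?_, ?_, ?_, ?_⟩
  · intro p hp hYp hpN
    have hu := uAB_nd (h.ty p hp hYp)
    have ju : jacobiSym (uAB A B p) p = 1 ∨ jacobiSym (uAB A B p) p = -1 := jac_pm hp hu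
    unfold fl s1
    rw [sQ_eq, sQ_eq]
    unfold sg0
    rw [jacobiSym.mul_left, one_mul]
    by_cases hpl : p = l ∨ p = l'
    · have hJ : jacobiSym (q : ℤ) p = -1 := by
        rcases hpl with rfl | rfl
        · exact syl
        · exact syl'
      rw [hJ, decide_eq_true hpl]
      rcases ju with h5 | h5 <;> rw [h5] <;> decide
    · have hJ : jacobiSym (q : ℤ) p = 1 := by
        rw [not_or] at hpl
        exact sy3 p hp (by omega) hpN hpl.1 hpl.2
      rw [hJ, one_mul, decide_eq_false hpl]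
      simp
  · have : q ≡ 1 [MOD m] := qM.of_dvd (by
      rw [hM]
      exact (Nat.dvd_factorial hm0 hm).mul_left _)
    exact this
  · refine jac_int q8 h.A0 fun p hp hp2 hd => sy3 p hp hp2 ((hd.mul_right _).mul_right _) ?_ ?_
    · rintro rfl
      exact h.lA hd
    · rintro rfl
      exact h.l'A hd
  · obtain ⟨B', hB', hB⟩ := h.lex
    have hB0 : B' ≠ 0 := by
      rintro rfl
      exact hB (dvd_zero _)
    have h1 : jacobiSym (l : ℤ) q = -1 := by
      rw [← jacobiSym.quadratic_reciprocity_one_mod_four (a := q) (b := l) (by omega)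
        (h.pl.odd_of_ne_two (by have := h.Yl; omega))]
      exact syl
    rw [hB', jacobiSym.mul_left, h1]
    have h2 : jacobiSym B' q = 1 := by
      refine jac_int q8 hB0 fun p hp hp2 hd => sy3 p hp hp2
        (((hB' ▸ hd.mul_left _ : (p : ℤ) ∣ B).mul_left _).mul_right _) ?_ ?_
      · rintro rfl
        exact hB hd
      · rintro rfl
        exact h.l'B (hB' ▸ hd.mul_left _)
    rw [h2]
    norm_num
  · obtain ⟨C', hC', hC⟩ := h.l'ex
    have hC0 : C' ≠ 0 := by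
      rintro rfl
      exact hC (dvd_zero _)
    have h1 : jacobiSym (l' : ℤ) q = -1 := by
      rw [← jacobiSym.quadratic_reciprocity_one_mod_four (a := q) (b := l') (by omega)
        (h.pl'.odd_of_ne_two (by have := h.Yl'; omega))]
      exact syl'
    rw [hC', jacobiSym.mul_left, h1]
    have h2 : jacobiSym C' q = 1 := by
      refine jac_int q8 hC0 fun p hp hp2 hd => sy3 p hp hp2
        ((hC' ▸ hd.mul_left _ : (p : ℤ) ∣ A - B).mul_left _) ?_ ?_
      · rintro rfl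
        exact h.lC (hC' ▸ hd.mul_left _)
      · rintro rfl
        exact hC hd
    rw [h2]
    norm_num

/-- **Infinite sets of primes.** -/
theorem exists_full {Y : ℕ} {A B : ℤ} {l l' : ℕ} (h : Mn Y A B l l') (m : ℕ) (hm : m ≤ Y)
    (hm0 : 0 < m) : ∃ 𝒬 : Set ℕ, 𝒬.Infinite ∧ (∀ q ∈ 𝒬, q % m = 1 % m) ∧
      ∀ T : Finset ℕ, (T : Set ℕ) ⊆ 𝒬 → GF Y A B l l' T := by
  classical
  obtain ⟨q₀, h0, h0m, h0A, h0B, h0C⟩ := exists_first h m hm hm0
  have hnd := h0.nd
  have hN := h.nz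
  have hq₀ := h0.pr
  have hq8 := h0.m8
  have hM0 : 0 < MM Y A B := by
    unfold MM
    have h1 := Nat.factorial_pos Y
    have h2 := Int.natAbs_pos.2 hN
    positivity
  have hY : Y < q₀ := by
    by_contra hcon
    push Not at hcon
    have h1 := h0.sm q₀ hq₀ (by omega) hcon
    have : NeZero q₀ := ⟨hq₀.ne_zero⟩
    have h5 : jacobiSym (q₀ : ℤ) q₀ = 0 := by
      rw [jacobiSym.eq_zero_iff_not_coprime]
      simp [hq₀.ne_one]
    rw [h5] at h1
    norm_num at h1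
  have hcop : q₀.Coprime (MM Y A B) := by
    rw [hq₀.coprime_iff_not_dvd]
    intro hd
    unfold MM at hd
    rcases (hq₀.dvd_mul).1 hd with hd | hd
    · rcases (hq₀.dvd_mul).1 hd with hd | hd
      · have h1 : q₀ ∣ 2 ^ 3 := by exact_mod_cast hd
        have h2 := (Nat.prime_dvd_prime_iff_eq hq₀ Nat.prime_two).1 (hq₀.dvd_of_dvd_pow h1)
        omega
      · have := (hq₀.dvd_factorial).1 hd
        omega
    · exact hnd (Int.natCast_dvd.2 hd)
  have hrec : ∀ {q r : ℕ}, q % 4 = 1 → r % 4 = 1 → jacobiSym (q : ℤ) r = jacobiSym (r : ℤ) q := by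
    intro q r h1 h2
    exact jacobiSym.quadratic_reciprocity_one_mod_four h1 (Nat.odd_iff.2 (by omega))
  let r : ℕ → ℕ → Prop := fun q q' => q ≠ q' ∧ jacobiSym (q : ℤ) q' = 1 ∧ jacobiSym (q' : ℤ) q = 1
  have hsymm : Std.Symm r := ⟨fun q q' h => ⟨h.1.symm, h.2.2, h.2.1⟩⟩
  let P : ℕ → Prop := fun q => q.Prime ∧ q ≡ q₀ [MOD MM Y A B]
  have hm4 : ∀ {q : ℕ}, q ≡ q₀ [MOD MM Y A B] → q % 8 = 1 := by
    intro q h
    have h8 : 8 ∣ MM Y A B := by unfold MM; exact ((Dvd.intro _ rfl).mul_right _)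
    have h1 : q % 8 = q₀ % 8 := h.of_dvd h8
    omega
  have hstep : ∀ S : Finset ℕ, (∀ q ∈ S, P q) → ∃ y, P y ∧ ∀ q ∈ S, r q y := by
    intro S hS
    have hcp : ∀ {q : ℕ}, q ≡ q₀ [MOD MM Y A B] → q.Coprime (MM Y A B) := by
      intro q h
      unfold Nat.Coprime
      rw [h.gcd_eq]
      exact hcop
    obtain ⟨y, y1, y2, y3, y4⟩ := exists_prime hM0 hcop (x := 1) (Or.inl rfl) S (by
      intro q hq
      obtain ⟨a1, a2⟩ := hS q hq
      have := hm4 a2
      exact ⟨a1, by omega, hcp a2⟩) (S.sup id)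
    have yS : ∀ q ∈ S, q < y := fun q hq => by
      have : q ≤ S.sup id := le_sup (f := id) hq
      omega
    have hy4 := hm4 y3
    refine ⟨y, ⟨y2, y3⟩, fun q hq => ⟨(yS q hq).ne, ?_, y4 q hq⟩⟩
    have := hm4 (hS q hq).2
    rw [hrec (by omega) (by omega)]
    exact y4 q hq
  obtain ⟨f, hf1, hf2⟩ := exists_seq_of_forall_finset_exists' P r hstep
  have hfi : Function.Injective f := by
    intro m n hmn
    by_contra hne
    exact (hf2 hne).1 hmn
  refine ⟨Set.range f, Set.infinite_range_of_injective hfi, ?_, fun T hT => ?_⟩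
  · rintro q ⟨n, rfl⟩
    have h1 : m ∣ MM Y A B := by
      unfold MM
      exact ((Nat.dvd_factorial hm0 hm).mul_left _).mul_right _
    have h2 : f n ≡ q₀ [MOD m] := (hf1 n).2.of_dvd h1
    exact h2.trans h0m
  have hmem : ∀ q ∈ T, q.Prime ∧ q ≡ q₀ [MOD MM Y A B] := by
    intro q hq
    obtain ⟨n, rfl⟩ := hT hq
    exact ⟨(hf1 n).1, (hf1 n).2⟩
  have hodd : ∀ q ∈ T, Odd q := fun q hq => by
    have := hm4 (hmem q hq).2
    exact Nat.odd_iff.2 (by omega)
  have hod₀ : Odd q₀ := Nat.odd_iff.2 (by omega)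
  refine ⟨fun q hq => good_mod h0 (hmem q hq).1 (hmem q hq).2, ?_, ?_, ?_, ?_⟩
  · intro q hq q' hq' hne
    obtain ⟨n, rfl⟩ := hT hq
    obtain ⟨m, rfl⟩ := hT hq'
    have hmn : m ≠ n := fun h => hne (by rw [h])
    exact (hf2 hmn).2.1
  · intro q hq
    rw [← h0A]
    exact jac_mod (by
      unfold MM
      rw [Int.natAbs_mul, Int.natAbs_mul]
      exact ⟨2 * Y.factorial * (B.natAbs * (A - B).natAbs), by ring⟩) (hodd q hq) hod₀
      (hmem q hq).2
  · intro q hq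
    rw [← h0B]
    exact jac_mod (by
      unfold MM
      rw [Int.natAbs_mul, Int.natAbs_mul]
      exact ⟨2 * Y.factorial * (A.natAbs * (A - B).natAbs), by ring⟩) (hodd q hq) hod₀
      (hmem q hq).2
  · intro q hq
    rw [← h0C]
    exact jac_mod (by
      unfold MM
      rw [Int.natAbs_mul, Int.natAbs_mul]
      exact ⟨2 * Y.factorial * (A.natAbs * B.natAbs), by ring⟩) (hodd q hq) hod₀
      (hmem q hq).2

end Pool.Agent.K1H97.FC
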