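import Pool.Agent.K1H97.FC.Min

/-!
# The Selmer classes of the twist by a product of an even number of primes
-/

set_option autoImplicit false

namespace Pool.Agent.K1H97.FC

open Finset
open Pool.Agent.Y676
open Pool.Agent.K1H97.CU
open Pool.Agent.W307.SE (Loc)
open Pool.Agent.W262.RK (dv sgn sg0)
open Pool.Agent.W313.BMX (Splits splits_comm splits_mul_sq ram diag even_agree)

/-- the conditions on the set of primes -/
structure GF (Y : ℕ) (A B : ℤ) (l l' : ℕ) (T : Finset ℕ) : Prop where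
  gd : ∀ q ∈ T, GoodQ Y A B (fl A B l l') q
  sy : ∀ q ∈ T, ∀ q' ∈ T, q' ≠ q → jacobiSym (q' : ℤ) q = 1
  jA : ∀ q ∈ T, jacobiSym A q = 1
  jB : ∀ q ∈ T, jacobiSym B q = -1
  jC : ∀ q ∈ T, jacobiSym (A - B) q = -1

lemma GF.pr {Y : ℕ} {A B : ℤ} {l l' : ℕ} {T : Finset ℕ} (h : GF Y A B l l' T) :
    ∀ q ∈ T, q.Prime := fun q hq => (h.gd q hq).pr

/-- for an odd number of primes the conditions of the odd case hold -/
lemma GF.odd {Y : ℕ} {A B : ℤ} {l l' : ℕ} {T : Finset ℕ} (h : GF Y A B l l' T)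
    (hod : Odd T.card) : GoodT Y A B (fl A B l l') 1 T := by
  refine ⟨h.gd, hod, Or.inl rfl, h.sy, fun q hq => ?_, fun q hq => ?_, fun q hq => ?_⟩
  · rw [h.jA q hq, h.jC q hq]
    norm_num
  · rw [h.jA q hq, h.jB q hq]
    norm_num
  · rw [h.jB q hq, h.jC q hq]
    norm_num

lemma sgn_J {p : ℕ} (hp : p.Prime) {F g : ℤ} (hF : ¬ (p : ℤ) ∣ F) :
    dv p (F * g) = dv p g ∧ sgn p (F * g) =
      decide (jacobiSym F p * jacobiSym (g / ((Int.gcd g p : ℕ) : ℤ)) p = -1) := by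
  have hpi : Prime (p : ℤ) := Nat.prime_iff_prime_int.1 hp
  have h1 : ((p : ℤ) ∣ F * g) ↔ (p : ℤ) ∣ g :=
    ⟨fun h => (hpi.dvd_or_dvd h).resolve_left hF, fun h => h.mul_left _⟩
  refine ⟨by unfold dv; simp only [h1], ?_⟩
  unfold sgn
  by_cases hg : (p : ℤ) ∣ g
  · have g1 : Int.gcd (F * g) p = p := by
      show Nat.gcd (F * g).natAbs (p : ℤ).natAbs = p
      rw [Int.natAbs_natCast]
      exact Nat.gcd_eq_right (Int.natCast_dvd.1 (h1.2 hg))
    have g2 : Int.gcd g p = p := by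
      show Nat.gcd g.natAbs (p : ℤ).natAbs = p
      rw [Int.natAbs_natCast]
      exact Nat.gcd_eq_right (Int.natCast_dvd.1 hg)
    rw [g1, g2, Int.mul_ediv_assoc F hg]
    unfold sg0
    rw [jacobiSym.mul_left]
  · have g1 : Int.gcd (F * g) p = 1 := by
      rw [Int.gcd_comm]
      exact Int.isCoprime_iff_gcd_eq_one.1 ((Prime.coprime_iff_not_dvd hpi).2 (fun h => hg (h1.1 h)))
    have g2 : Int.gcd g p = 1 := by
      rw [Int.gcd_comm]
      exact Int.isCoprime_iff_gcd_eq_one.1 ((Prime.coprime_iff_not_dvd hpi).2 hg)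
    rw [g1, g2, Nat.cast_one, Int.ediv_one, Int.ediv_one]
    unfold sg0
    rw [jacobiSym.mul_left]

lemma sgn_congr {p : ℕ} (hp : p.Prime) {F F' g : ℤ} (hF : ¬ (p : ℤ) ∣ F)
    (hF' : ¬ (p : ℤ) ∣ F') (hJ : jacobiSym F p = jacobiSym F' p) :
    dv p (F * g) = dv p (F' * g) ∧ sgn p (F * g) = sgn p (F' * g) := by
  obtain ⟨a1, a2⟩ := sgn_J (g := g) hp hF
  obtain ⟨b1, b2⟩ := sgn_J (g := g) hp hF'
  rw [a1, a2, b1, b2, hJ]
  exact ⟨rfl, rfl⟩

/-- the symbol of a squarefree integer and a unit -/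
lemma spl_unit {q : ℕ} [hq : Fact q.Prime] (hq2 : q ≠ 2) {d f : ℤ} (hd : Squarefree d)
    (hf : Squarefree f) (hqf : ¬ (q : ℤ) ∣ f) : Splits (d : ℚ_[q]) (f : ℚ_[q]) ↔
      ¬ (dv q d = true ∧ jacobiSym f q = -1) := by
  rw [splits_bits hq2 hd hf]
  have h1 : dv q f = false := by
    unfold dv
    rw [decide_eq_false_iff_not]
    exact hqf
  have h2 : sgn q f = decide (jacobiSym f q = -1) := by
    unfold sgn sg0
    have hg : Int.gcd f q = 1 := by
      rw [Int.gcd_comm]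
      exact Int.isCoprime_iff_gcd_eq_one.1
        ((Prime.coprime_iff_not_dvd (Nat.prime_iff_prime_int.1 hq.out)).2 hqf)
    rw [hg, Nat.cast_one, Int.ediv_one]
  rw [h1, h2]
  by_cases h3 : jacobiSym f q = -1
  · rw [decide_eq_true h3]
    cases dv q d <;> simp [h3]
  · rw [decide_eq_false h3]
    cases dv q d <;> simp [h3]

/-- the symbols of integers whose product is a square -/
lemma jac_sq_mul {q : ℕ} (hq : q.Prime) {n m : ℤ} (hn : ¬ (q : ℤ) ∣ n) (hm : ¬ (q : ℤ) ∣ m)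
    (h : IsSquare (n * m)) : jacobiSym m q = jacobiSym n q := by
  have hqi : Prime (q : ℤ) := Nat.prime_iff_prime_int.1 hq
  obtain ⟨r, hr⟩ := h
  have hr0 : ¬ (q : ℤ) ∣ r := by
    intro hd
    have : (q : ℤ) ∣ n * m := by rw [hr]; exact hd.mul_right _
    exact (hqi.dvd_or_dvd this).elim hn hm
  have h1 : jacobiSym n q * jacobiSym m q = jacobiSym r q * jacobiSym r q := by
    rw [← jacobiSym.mul_left, ← jacobiSym.mul_left, hr]
  have a := sg0_pm hq hn
  have b := sg0_pm hq hm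
  have c := sg0_pm hq hr0
  rw [a, b, c] at h1
  rw [a, b]
  revert h1
  generalize sg0 q n = x
  generalize sg0 q m = y
  generalize sg0 q r = z
  revert x y z
  decide

/-- a prime or one, according to the parity of the number of primes -/
def qw (q : ℕ) (S : Finset ℕ) : ℤ := if Odd S.card then (q : ℤ) else 1

lemma jac_qw {S : Finset ℕ} {q p : ℕ} {κ : ℤ} (hκ : κ = 1 ∨ κ = -1)
    (hq : jacobiSym (q : ℤ) p = κ) : jacobiSym (qw q S) p = κ ^ S.card := by
  unfold qw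
  split_ifs with h
  · rw [hq, pm_odd hκ h]
  · rw [Nat.not_odd_iff_even] at h
    rw [jacobiSym.one_left, pm_even hκ h]

lemma qw_nd {S : Finset ℕ} {q p : ℕ} (hp : p.Prime) (h : ¬ (p : ℤ) ∣ (q : ℤ)) :
    ¬ (p : ℤ) ∣ qw q S := by
  unfold qw
  split_ifs
  · exact h
  · intro hd
    exact (Nat.prime_iff_prime_int.1 hp).not_isUnit (isUnit_of_dvd_one hd)

lemma sqf_qw {S : Finset ℕ} {q : ℕ} (hq : q.Prime) {g : ℤ} (hg : Squarefree g)
    (hqg : ¬ (q : ℤ) ∣ g) : Squarefree (qw q S * g) := by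
  unfold qw
  split_ifs
  · rw [← Int.squarefree_natAbs, Int.natAbs_mul, Int.natAbs_natCast, Nat.squarefree_mul_iff]
    refine ⟨(Nat.Prime.coprime_iff_not_dvd hq).2 fun h => hqg (Int.natCast_dvd.2 h),
      hq.squarefree, Int.squarefree_natAbs.2 hg⟩
  · rwa [one_mul]

lemma dv_qw {S : Finset ℕ} {q : ℕ} (hq : q.Prime) {g : ℤ} (hqg : ¬ (q : ℤ) ∣ g) :
    dv q (qw q S * g) = decide (Odd S.card) := by
  unfold dv qw
  split_ifs with h
  · rw [decide_eq_true h, decide_eq_true_iff]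
    exact dvd_mul_right _ _
  · rw [decide_eq_false h, one_mul, decide_eq_false_iff_not]
    exact hqg

lemma cls_FF {K : Type} [Field K] {F F' g n : ℤ} (hn : n = F * g) (hF : IsSquare (F : K))
    (hF' : IsSquare (F' : K)) : IsSquare ((n : K) * ((F' * g : ℤ) : K)) := by
  obtain ⟨r, hr⟩ := hF
  obtain ⟨r', hr'⟩ := hF'
  refine ⟨r * r' * g, ?_⟩
  rw [hn]
  push_cast
  rw [hr, hr']
  ring

/-- **the classes over the twist by an even number of primes** -/
theorem core_even {Y : ℕ} {A B : ℤ} {l l' : ℕ} (h : Mn Y A B l l') {T : Finset ℕ}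
    (hT : GF Y A B l l' T) (hev : Even T.card) {f : ℤ × ℤ} (hf : InSel (pT T * A) (pT T * B) f)
    {g1 g2 : ℤ} {T1 T2 : Finset ℕ} (hT1 : T1 = T.filter (fun q : ℕ => (q : ℤ) ∣ f.1))
    (hT2 : T2 = T.filter (fun q : ℕ => (q : ℤ) ∣ f.2)) (e1 : f.1 = pT T1 * g1)
    (e2 : f.2 = pT T2 * g2) (sq1 : Squarefree g1) (sq2 : Squarefree g2)
    (n1 : ∀ q ∈ T, ¬ (q : ℤ) ∣ g1) (n2 : ∀ q ∈ T, ¬ (q : ℤ) ∣ g2) :
    InSel A B (g1, g2) := by
  have hTp := hT.pr
  have hY2 : 2 ≤ Y := by have := h.hY; omega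
  have sub1 : T1 ⊆ T := by rw [hT1]; exact filter_subset _ _
  have sub2 : T2 ⊆ T := by rw [hT2]; exact filter_subset _ _
  have hf1 := hf.sq1.ne_zero
  have hf2 := hf.sq2.ne_zero
  rcases T.eq_empty_or_nonempty with hTe | ⟨q, hq⟩
  · subst hTe
    have h7 : pT ∅ = 1 := by
      unfold pT
      simp
    have z1 : T1 = ∅ := subset_empty.1 sub1
    have z2 : T2 = ∅ := subset_empty.1 sub2
    rw [z1, h7, one_mul] at e1
    rw [z2, h7, one_mul] at e2
    rw [h7, one_mul, one_mul] at hf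
    rwa [← e1, ← e2]
  have hqp := hTp q hq
  have hqF : Fact q.Prime := ⟨hqp⟩
  have hqi : Prime (q : ℤ) := Nat.prime_iff_prime_int.1 hqp
  have hg := hT.gd q hq
  have hq8 := hg.m8
  have hq2 : q ≠ 2 := by omega
  have dA : ¬ (q : ℤ) ∣ A := fun h => hg.nd ((h.mul_right _).mul_right _)
  have dB : ¬ (q : ℤ) ∣ B := fun h => hg.nd ((h.mul_left _).mul_right _)
  have dAB : ¬ (q : ℤ) ∣ A - B := fun h => hg.nd (h.mul_left _)
  -- the class with at most one additional prime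
  have hX : InX Y A B (s1 A B) q (qw q T1 * g1, qw q T2 * g2) := by
    refine ⟨sqf_qw hqp sq1 (n1 q hq), sqf_qw hqp sq2 (n2 q hq), ?_, ?_, ?_, ?_⟩
    · have hpos : (0 : ℝ) < (pT T : ℝ) := by exact_mod_cast pT_pos hTp
      have hsqr : ∀ S ⊆ T, IsSquare ((pT S : ℤ) : ℝ) := by
        intro S hS
        have : (0 : ℝ) < (pT S : ℝ) := by exact_mod_cast pT_pos fun q hq => hTp q (hS hq)
        exact ⟨Real.sqrt (pT S), (Real.mul_self_sqrt this.le).symm⟩
      have hsqw : ∀ S : Finset ℕ, IsSquare ((qw q S : ℤ) : ℝ) := by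
        intro S
        have : (0 : ℝ) ≤ (qw q S : ℝ) := by
          unfold qw
          split_ifs <;> positivity
        exact ⟨Real.sqrt (qw q S), (Real.mul_self_sqrt this).symm⟩
      have h := loc_scale (r := Real.sqrt (pT T)) (Real.sqrt_pos.2 hpos).ne'
        (by rw [Real.sq_sqrt hpos.le]) hf.re
      exact loc_cls' (by exact_mod_cast hf1) (by exact_mod_cast hf2)
        (cls_FF e1 (hsqr T1 sub1) (hsqw T1)) (cls_FF e2 (hsqr T2 sub2) (hsqw T2)) h
    · intro p hp hpY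
      have hsqr : ∀ S ⊆ T, IsSquare ((pT S : ℤ) : ℚ_[p]) := fun S hS =>
        isSquare_pT S fun q hq => goodq_sq (hT.gd q (hS hq)) p hpY
      have hsqw : ∀ S : Finset ℕ, IsSquare ((qw q S : ℤ) : ℚ_[p]) := by
        intro S
        unfold qw
        split_ifs
        · exact goodq_sq hg p hpY
        · rw [Int.cast_one]
          exact IsSquare.one
      obtain ⟨r, hr⟩ := hsqr T (Subset.refl _)
      have hr0 : r ≠ 0 := by
        rintro rfl
        rw [mul_zero] at hr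
        exact pT_ne hTp (by exact_mod_cast hr)
      have h := loc_scale hr0 (by rw [hr, pow_two]) (hf.lo p)
      exact loc_cls' (by exact_mod_cast hf1) (by exact_mod_cast hf2)
        (cls_FF e1 (hsqr T1 sub1) (hsqw T1)) (cls_FF e2 (hsqr T2 sub2) (hsqw T2)) h
    · intro p hp hpq hYp hN
      have : Fact p.Prime := ⟨hp⟩
      have hpi : Prime (p : ℤ) := Nat.prime_iff_prime_int.1 hp
      have hpq' : ¬ (p : ℤ) ∣ (q : ℤ) := by
        intro h
        exact hpq ((Nat.prime_dvd_prime_iff_eq hp hqp).1 (by exact_mod_cast h))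
      have key : ¬ (p : ℤ) ∣ g1 ∧ ¬ (p : ℤ) ∣ g2 := by
        by_cases hpT : p ∈ T
        · exact ⟨n1 p hpT, n2 p hpT⟩
        · have hg := goodp p (pT T * A) (pT T * B) f.1 f.2 (by
            intro h
            have e5 : 2 * (pT T * A) * (pT T * B) * (pT T * A - pT T * B) =
              (2 * (pT T) ^ 3) * (A * B * (A - B)) := by ring
            rw [e5] at h
            rcases hpi.dvd_or_dvd h with h | h
            · rcases hpi.dvd_or_dvd h with h | h
              · have h6 : p ∣ 2 := by exact_mod_cast h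
                have := Nat.le_of_dvd (by norm_num) h6
                omega
              · exact nd_pT hTp hp hpT (hpi.dvd_of_dvd_pow h)
            · exact hN h) hf.sq1 hf.sq2 (hf.lo p)
          refine ⟨fun h => hg.1 ?_, fun h => hg.2 ?_⟩
          · rw [e1]
            exact h.mul_left _
          · rw [e2]
            exact h.mul_left _
      exact ⟨fun hd => (hpi.dvd_or_dvd hd).elim (qw_nd hp hpq') key.1,
        fun hd => (hpi.dvd_or_dvd hd).elim (qw_nd hp hpq') key.2⟩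
    · intro p hp hYp hN
      have : Fact p.Prime := ⟨hp⟩
      have hpT : p ∉ T := fun h => (hT.gd p h).nd hN
      have hu := uAB_nd (h.ty p hp hYp)
      have hqp' : ∀ q ∈ T, ¬ (p : ℤ) ∣ (q : ℤ) := by
        intro q hq h
        have hpq := (Nat.prime_dvd_prime_iff_eq hp (hTp q hq)).1 (by exact_mod_cast h)
        exact hpT (hpq ▸ hq)
      obtain ⟨κ, hκ⟩ : ∃ κ, κ = kap A B (fl A B l l' p) p := ⟨_, rfl⟩
      have hk1 : κ = 1 ∨ κ = -1 := by
        rw [hκ]
        exact (kap_spec (b := fl A B l l' p) hp (h.ty p hp hYp)).1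
      have hk : ∀ q ∈ T, jacobiSym (q : ℤ) p = κ := fun q hq => by
        rw [hκ]
        exact jac_kap hp hu (hqp' q hq) ((hT.gd q hq).sg p hp hYp hN)
      have hsQ : sQ A B (pT T) p = s1 A B p := by
        unfold s1
        rw [sQ_eq, sQ_eq]
        unfold sg0
        rw [jacobiSym.mul_left, jac_prod T p _ hk, pm_even hk1 hev, one_mul, one_mul]
      have hL := lc_of_loc (by omega) (nd_pT hTp hp hpT) (h.ty p hp hYp) hf.sq1 hf.sq2 (hf.lo p)
      have a1 := sgn_congr (g := g1) (F := pT T1) (F' := qw q T1) hp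
        (nd_pT (fun q hq => hTp q (sub1 hq)) hp (fun h => hpT (sub1 h)))
        (qw_nd hp (hqp' q hq)) (by
          rw [jac_prod T1 p _ fun q hq => hk q (sub1 hq), jac_qw hk1 (hk q hq)])
      have a2 := sgn_congr (g := g2) (F := pT T2) (F' := qw q T2) hp
        (nd_pT (fun q hq => hTp q (sub2 hq)) hp (fun h => hpT (sub2 h)))
        (qw_nd hp (hqp' q hq)) (by
          rw [jac_prod T2 p _ fun q hq => hk q (sub2 hq), jac_qw hk1 (hk q hq)])
      rw [← e1] at a1
      rw [← e2] at a2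
      unfold Lc at hL ⊢
      rw [a1.1, a1.2, a2.1, a2.2, hsQ] at hL
      exact hL
  have J1 : jacobiSym (-1) q = 1 := by
    rw [jacobiSym.at_neg_one (hqp.odd_of_ne_two hq2), ZMod.χ₄_nat_one_mod_four (by omega)]
  have hJ : ∀ {n m : ℤ}, ¬ (q : ℤ) ∣ n → Squarefree m → ¬ (q : ℤ) ∣ m → IsSquare (n * m) →
      jacobiSym m q = jacobiSym n q := fun hn _ hm hs => jac_sq_mul hqp hn hm hs
  have nd : ∀ {u v : ℤ}, ¬ (q : ℤ) ∣ u → ¬ (q : ℤ) ∣ v → ¬ (q : ℤ) ∣ u * v := by
    intro u v hu hv h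
    exact (hqi.dvd_or_dvd h).elim hu hv
  -- the pairing with the first point
  obtain ⟨t, ht, st1, st2, -, -⟩ := h.tor false true
  obtain ⟨u, hu, su1, su2, -, -⟩ := h.tor true false
  have ht' := ins_of_sel hY2 h.ty ht
  have hu' := ins_of_sel hY2 h.ty hu
  have hYq : Y < q := by
    by_contra hle
    have h5 := hg.sm q hqp hq2 (by omega)
    have h6 : jacobiSym (q : ℤ) q = 0 := by
      rw [jacobiSym.eq_zero_iff_not_coprime]
      simp [hqp.ne_one]
    rw [h6] at h5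
    norm_num at h5
  obtain ⟨tn1, tn2⟩ := ht'.un q hqp hYq hg.nd
  obtain ⟨un1, un2⟩ := hu'.un q hqp hYq hg.nd
  have p1 := pair_x hY2 h.A0 hX (InX.of_ins ht' q) (fun p hp hYp hN hpq => by simp)
  have p2 := pair_x hY2 h.A0 hX (InX.of_ins hu' q) (fun p hp hYp hN hpq => by simp)
  rw [spl_unit hq2 hX.sq1 ht.sq2 tn2, spl_unit hq2 hX.sq2 ht.sq1 tn1] at p1
  rw [spl_unit hq2 hX.sq1 hu.sq2 un2, spl_unit hq2 hX.sq2 hu.sq1 un1] at p2
  have jt1 : jacobiSym t.1 q = -1 := by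
    have h5 : IsSquare (A * B * t.1) := st1
    rw [hJ (nd dA dB) ht.sq1 tn1 h5, jacobiSym.mul_left, hT.jA q hq, hT.jB q hq]
    norm_num
  have jt2 : jacobiSym t.2 q = 1 := by
    have h5 : IsSquare (-A * t.2) := st2
    rw [hJ (fun hd => dA ((dvd_neg).1 hd)) ht.sq2 tn2 h5, ← neg_one_mul, jacobiSym.mul_left, J1,
      hT.jA q hq]
    norm_num
  have ju1 : jacobiSym u.1 q = 1 := by
    have h5 : IsSquare (A * u.1) := su1
    rw [hJ dA hu.sq1 un1 h5, hT.jA q hq]
  have ju2 : jacobiSym u.2 q = -1 := by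
    have h5 : IsSquare (A * (A - B) * u.2) := su2
    rw [hJ (nd dA dAB) hu.sq2 un2 h5, jacobiSym.mul_left, hT.jA q hq, hT.jC q hq]
    norm_num
  rw [jt1, jt2] at p1
  rw [ju1, ju2] at p2
  have w2 : ¬ dv q (qw q T2 * g2) = true := by
    intro hw
    exact (p1.1 (fun hh => absurd hh.2 (by norm_num))) ⟨hw, rfl⟩
  have w1 : ¬ dv q (qw q T1 * g1) = true := by
    intro hw
    exact (p2.2 (fun hh => absurd hh.2 (by norm_num))) ⟨hw, rfl⟩
  rw [dv_qw hqp (n2 q hq), decide_eq_true_iff] at w2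
  rw [dv_qw hqp (n1 q hq), decide_eq_true_iff] at w1
  have k1 : qw q T1 = 1 := by
    unfold qw
    rw [if_neg w1]
  have k2 : qw q T2 = 1 := by
    unfold qw
    rw [if_neg w2]
  rw [k1, k2, one_mul, one_mul] at hX
  exact sel_of_ins h.hY h.ty (hX.ins (n1 q hq) (n2 q hq))

end Pool.Agent.K1H97.FC
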