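import Pool.Agent.K1H97.FC.Dir
import Pool.Agent.Y676.MainA
import Pool.Agent.Y667.RZ.Sha

/-!
# A positive proportion of the curves has infinite sets of primes with trivial twists
-/

set_option autoImplicit false

namespace Pool.Agent.K1H97.FC

open Finset
open Pool.Agent.Y676
open Pool.Agent.K1H97.CU
open Pool.Agent.W307.SE (Loc SelR)
open Pool.Agent.W307.RT (Cv HasT Sh)
open Pool.Agent.TH841.SH (SelG LocC isR_Sh selG_le)

/-- an infinite set of primes all of whose products give trivial twists -/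
def FCube (m : ℕ) (c : ℤ × ℤ) (𝒬 : Set ℕ) : Prop :=
  𝒬.Infinite ∧ (∀ q ∈ 𝒬, q.Prime) ∧ (∀ q ∈ 𝒬, q % m = 1 % m) ∧
  ∀ T : Finset ℕ, (T : Set ℕ) ⊆ 𝒬 → Tv (Sh ((pT T) ^ 2 * c.1) ((pT T) ^ 3 * c.2))

lemma locC_of_loc {K : Type} [Field K] {a b c d1 d2 : ℤ} (h : Loc K (b - a) (c - a) d1 d2) :
    LocC K a b c d1 d2 := by
  obtain ⟨x, y, hy, hxy, s1, s2⟩ := h
  refine ⟨x + a, y, hy, ?_, ?_, ?_⟩
  · rw [hxy]
    push_cast
    ring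
  · rwa [add_sub_cancel_right]
  · have e : x + (a : K) - (b : K) = x - ((b - a : ℤ) : K) := by
      push_cast
      ring
    rw [e]
    exact s2

/-- the curves with four Selmer classes and the typical conditions -/
lemma mn_of {c : ℤ × ℤ} {e1 e2 e3 : ℤ} (hD : 4 * c.1 ^ 3 + 27 * c.2 ^ 2 ≠ 0)
    (hr : ∀ x : ℤ, x ^ 3 + c.1 * x + c.2 = (x - e1) * (x - e2) * (x - e3)) {Y : ℕ} (hY : 7 ≤ Y)
    (h1 : Ty1 Y (e2 - e1) (e3 - e1)) (h2 : Ty2 Y (e2 - e1) (e3 - e1))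
    (hS : (SelR c.1 c.2).Finite) (hc : (SelR c.1 c.2).ncard ≤ 4) :
    ∃ l l' : ℕ, Mn Y (e2 - e1) (e3 - e1) l l' := by
  obtain ⟨d12, d13, d23⟩ := Pool.Agent.W402.FK.dist c.1 c.2 e1 e2 e3 hD hr
  obtain ⟨⟨l, pl, Yl, dl, -⟩, ⟨l', pl', Yl', dl', -⟩⟩ := h2 (-1) (by
    rw [← Int.squarefree_natAbs]; simp) (by norm_num) (fun p hp hd => by
      exfalso
      rw [dvd_neg] at hd
      exact (Nat.prime_iff_prime_int.1 hp).not_isUnit (isUnit_of_dvd_one hd))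
  obtain ⟨g1, g2⟩ := selG_le hD hr hS
  have he : {e | InSel (e2 - e1) (e3 - e1) e} ⊆ SelG e1 e2 e3 := by
    intro e he
    exact ⟨he.sq1, he.sq2, locC_of_loc he.re, fun p _ => locC_of_loc (he.lo p)⟩
  refine ⟨l, l', ⟨hY, h1, pl, pl', Yl, Yl', dl, dl', ?_, g1.subset he,
    (Set.ncard_le_ncard he g1).trans (g2.trans hc)⟩⟩
  refine mul_ne_zero (mul_ne_zero (sub_ne_zero.2 d12.symm) (sub_ne_zero.2 d13.symm)) ?_
  intro h
  apply d23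
  linarith

/-- the sets of primes of a curve -/
theorem fcube_of {c : ℤ × ℤ} {e1 e2 e3 : ℤ} (hD : 4 * c.1 ^ 3 + 27 * c.2 ^ 2 ≠ 0)
    (hHT : HasT 2 (Sh c.1 c.2))
    (hr : ∀ x : ℤ, x ^ 3 + c.1 * x + c.2 = (x - e1) * (x - e2) * (x - e3)) {Y : ℕ} (hY : 7 ≤ Y)
    (h1 : Ty1 Y (e2 - e1) (e3 - e1)) (h2 : Ty2 Y (e2 - e1) (e3 - e1))
    (hS : (SelR c.1 c.2).Finite) (hc : (SelR c.1 c.2).ncard ≤ 4) {m : ℕ} (hm : m ≤ Y)
    (hm0 : 0 < m) : ∃ 𝒬 : Set ℕ, FCube m c 𝒬 := by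
  obtain ⟨d12, d13, d23⟩ := Pool.Agent.W402.FK.dist c.1 c.2 e1 e2 e3 hD hr
  obtain ⟨l, l', h⟩ := mn_of hD hr hY h1 h2 hS hc
  obtain ⟨𝒬, q1, q2, q3⟩ := exists_full h m hm hm0
  refine ⟨𝒬, q1, fun q hq => ?_, q2, fun T hT => ?_⟩
  · have := q3 {q} (by simpa using hq)
    exact this.pr q (mem_singleton_self q)
  · rcases T.eq_empty_or_nonempty with hTe | hne
    · subst hTe
      have h7 : pT ∅ = 1 := by
        unfold pT
        simp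
      rw [h7, one_pow, one_pow, one_mul, one_mul]
      obtain ⟨k1, k2⟩ := Pool.Agent.Y667.SHA.sha_zero4 hD hHT hS hc
      refine ⟨fin_R (a := e1) (b := e2) (c := e3) (by exact_mod_cast isR_Sh hr) d12 d13 d23 k1,
        fun x hx => ?_⟩
      apply k2 1 x
      rw [pow_one, two_nsmul]
      exact hx
    · exact tw_full hr h (q3 T hT) hne

open Classical in
/-- almost all curves are typical -/
theorem typ (ε : ℝ) (hε : 0 < ε) : ∃ Y0 : ℕ, ∀ Y : ℕ, Y0 ≤ Y → ∃ H0 : ℕ, ∀ H : ℕ, H0 ≤ H →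
    (((Cv 2 H).filter (fun c => ¬ (Ty1 Y (Ab c).1 (Ab c).2 ∧ Ty2 Y (Ab c).1 (Ab c).2))).card : ℝ) ≤
      ε * ((Cv 2 H).card : ℝ) := by
  obtain ⟨K, hK, hT⟩ := transfer 1
  obtain ⟨δ, hδ⟩ : ∃ δ : ℝ, δ = ε / (K + 1) := ⟨_, rfl⟩
  have hδ0 : 0 < δ := by rw [hδ]; positivity
  obtain ⟨Y1, hY12, hY1⟩ := box_all 1 δ hδ0
  refine ⟨Y1, fun Y hY => ?_⟩
  obtain ⟨X1, hX1⟩ := hY1 Y hY
  obtain ⟨H2, hH2⟩ := hT X1
  refine ⟨H2, fun H hH => ?_⟩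
  obtain ⟨T, a1, a2, a3, a4⟩ := hH2 H hH
  obtain ⟨Q, hQ⟩ : ∃ Q : ℕ, Q = ⌈(Real.log T) ^ (CE 1)⌉₊ := ⟨_, rfl⟩
  have hQT : (Real.log T) ^ (CE 1) ≤ 2 * Q := by
    have h1 : (Real.log T) ^ (CE 1) ≤ Q := by rw [hQ]; exact Nat.le_ceil _
    have h2 : (0 : ℝ) ≤ Q := Nat.cast_nonneg _
    linarith
  have h5 := a4 δ hδ0.le (fun t => ¬ GT Y T Q t) (hX1 T a1 Q hQT)
  have h6 : (((Cv 2 H).filter (fun c => ¬ (Ty1 Y (Ab c).1 (Ab c).2 ∧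
      Ty2 Y (Ab c).1 (Ab c).2))).card : ℝ) ≤
      (((CT 1 H).filter (fun x => ¬ GT Y T Q (fun i => Ab (x i)))).card : ℝ) := by
    have : ((Cv 2 H).filter (fun c => ¬ (Ty1 Y (Ab c).1 (Ab c).2 ∧
        Ty2 Y (Ab c).1 (Ab c).2))).card ≤
        ((CT 1 H).filter (fun x => ¬ GT Y T Q (fun i => Ab (x i)))).card := by
      apply card_le_card_of_injOn (fun c₁ (_ : Fin 1) => c₁)
      · intro c₁ hx
        rw [mem_coe, mem_filter] at hx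
        have hmem : (fun (_ : Fin 1) => c₁) ∈ CT 1 H := by
          unfold CT
          rw [Fintype.mem_piFinset]
          exact fun _ => hx.1
        rw [mem_coe, mem_filter]
        refine ⟨hmem, fun hG => hx.2 ⟨hG.ty1 0, hG.ty2 0⟩⟩
      · intro x _ y _ hxy
        exact congrFun hxy 0
    exact_mod_cast this
  rw [pow_one] at h5
  refine h6.trans (h5.trans ?_)
  apply mul_le_mul_of_nonneg_right _ (by positivity)
  rw [hδ]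
  have e1 : ε / (K + 1) * K = ε * (K / (K + 1)) := by
    field_simp
  rw [e1]
  have e2 : K / (K + 1) ≤ 1 := by
    rw [div_le_one (by positivity)]
    linarith
  nlinarith

open Classical in
/-- **A positive proportion of the curves.** -/
theorem mainF : ∃ κ : ℝ, 0 < κ ∧ ∀ m : ℕ, 0 < m → ∃ H0 : ℕ, ∀ H : ℕ, H0 ≤ H →
    κ * ((Cv 2 H).card : ℝ) ≤ (((Cv 2 H).filter (fun c => ∃ 𝒬 : Set ℕ, FCube m c 𝒬)).card : ℝ) := by
  obtain ⟨κ, hκ, H1, h1⟩ := Pool.Agent.Y667.RZ.curvesW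
  obtain ⟨Y0, hY0⟩ := typ (κ / 2) (by positivity)
  refine ⟨κ / 2, by positivity, fun m hm => ?_⟩
  obtain ⟨Y, hY⟩ : ∃ Y : ℕ, Y = Y0 + 7 + m := ⟨_, rfl⟩
  obtain ⟨H2, h2⟩ := hY0 Y (by omega)
  refine ⟨H1 + H2, fun H hH => ?_⟩
  have a1 := (h1 H (by omega)).1
  have a2 := h2 H (by omega)
  have hsub : ((Cv 2 H).filter (fun k : ℤ × ℤ => (SelR k.1 k.2).Finite ∧
      (SelR k.1 k.2).ncard = 4 ∧ Module.finrank ℤ (Sh k.1 k.2).toAffine.Point = 0)) ⊆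
      ((Cv 2 H).filter (fun c => ∃ 𝒬 : Set ℕ, FCube m c 𝒬)) ∪
      ((Cv 2 H).filter (fun c => ¬ (Ty1 Y (Ab c).1 (Ab c).2 ∧ Ty2 Y (Ab c).1 (Ab c).2))) := by
    intro c hc
    rw [mem_filter] at hc
    rw [mem_union, mem_filter, mem_filter]
    by_cases ht : Ty1 Y (Ab c).1 (Ab c).2 ∧ Ty2 Y (Ab c).1 (Ab c).2
    · left
      refine ⟨hc.1, ?_⟩
      have hpr := pr_EE hc.1
      have hc' := hc.1
      unfold Cv at hc'
      obtain ⟨-, b1, -, -, -, b2⟩ := mem_filter.1 hc'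
      exact fcube_of b1 b2 hpr.rt (by omega) ht.1 ht.2 hc.2.1 hc.2.2.1.le (by omega) hm
    · exact Or.inr ⟨hc.1, ht⟩
  have h3 := (card_le_card hsub).trans (card_union_le _ _)
  have h4 : (((Cv 2 H).filter (fun k : ℤ × ℤ => (SelR k.1 k.2).Finite ∧
      (SelR k.1 k.2).ncard = 4 ∧ Module.finrank ℤ (Sh k.1 k.2).toAffine.Point = 0)).card : ℝ) ≤
      (((Cv 2 H).filter (fun c => ∃ 𝒬 : Set ℕ, FCube m c 𝒬)).card : ℝ) +
      (((Cv 2 H).filter (fun c => ¬ (Ty1 Y (Ab c).1 (Ab c).2 ∧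
        Ty2 Y (Ab c).1 (Ab c).2))).card : ℝ) := by
    exact_mod_cast h3
  linarith

end Pool.Agent.K1H97.FC
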