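import Pool.Agent.K1H97.FC.Rec

/-!
# Curves with four Selmer classes: the group with the signs flipped at two primes is trivial
-/

set_option autoImplicit false

namespace Pool.Agent.K1H97.FC

open Pool.Agent.Y676
open Pool.Agent.W307.SE (Loc)
open Pool.Agent.W262.RK (dv sgn sg0)
open Pool.Agent.TH841.SH (pt_real pt_pad)

/-- a curve with four Selmer classes and two special primes -/
structure Mn (Y : ℕ) (A B : ℤ) (l l' : ℕ) : Prop where
  hY : 7 ≤ Y
  ty : Ty1 Y A B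
  pl : l.Prime
  pl' : l'.Prime
  Yl : Y < l
  Yl' : Y < l'
  dB : (l : ℤ) ∣ B
  dC : (l' : ℤ) ∣ A - B
  nz : A * B * (A - B) ≠ 0
  fin : {e | InSel A B e}.Finite
  crd : {e | InSel A B e}.ncard ≤ 4

section

variable {Y : ℕ} {A B : ℤ} {l l' : ℕ} (h : Mn Y A B l l')

include h

lemma Mn.two {p : ℕ} (hp : p.Prime) (hYp : Y < p) : ¬ ((p : ℤ) ∣ A ∧ (p : ℤ) ∣ B) ∧
    ¬ ((p : ℤ) ∣ A ∧ (p : ℤ) ∣ A - B) ∧ ¬ ((p : ℤ) ∣ B ∧ (p : ℤ) ∣ A - B) := by
  have h1 := h.ty p hp hYp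
  have two : ∀ {u v : ℤ}, (p : ℤ) ∣ u → (p : ℤ) ∣ v → (p : ℤ) ^ 2 ∣ u * v := by
    intro u v hu hv
    rw [pow_two]
    exact mul_dvd_mul hu hv
  refine ⟨fun h => h1 ((two h.1 h.2).mul_right _), fun h => h1 ?_, fun h => h1 ?_⟩
  · have e : A * B * (A - B) = (A * (A - B)) * B := by ring
    rw [e]
    exact (two h.1 h.2).mul_right _
  · have e : A * B * (A - B) = (B * (A - B)) * A := by ring
    rw [e]
    exact (two h.1 h.2).mul_right _

lemma Mn.lA : ¬ (l : ℤ) ∣ A := fun hA => (h.two h.pl h.Yl).1 ⟨hA, h.dB⟩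
lemma Mn.lC : ¬ (l : ℤ) ∣ A - B := fun hA => (h.two h.pl h.Yl).2.2 ⟨h.dB, hA⟩
lemma Mn.l'A : ¬ (l' : ℤ) ∣ A := fun hA => (h.two h.pl' h.Yl').2.1 ⟨hA, h.dC⟩
lemma Mn.l'B : ¬ (l' : ℤ) ∣ B := fun hA => (h.two h.pl' h.Yl').2.2 ⟨hA, h.dC⟩

lemma Mn.ne : l ≠ l' := by
  rintro rfl
  exact h.lC h.dC

lemma Mn.A0 : A ≠ 0 := left_ne_zero_of_mul (left_ne_zero_of_mul h.nz)
lemma Mn.B0 : B ≠ 0 := right_ne_zero_of_mul (left_ne_zero_of_mul h.nz)
lemma Mn.C0 : A - B ≠ 0 := right_ne_zero_of_mul h.nz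

lemma Mn.lN : (l : ℤ) ∣ A * B * (A - B) := (h.dB.mul_left _).mul_right _
lemma Mn.l'N : (l' : ℤ) ∣ A * B * (A - B) := h.dC.mul_left _

/-- the exponent of the prime is one -/
lemma Mn.lex : ∃ B' : ℤ, B = l * B' ∧ ¬ (l : ℤ) ∣ B' := by
  obtain ⟨B', hB'⟩ := h.dB
  refine ⟨B', hB', fun hd => h.ty l h.pl h.Yl ?_⟩
  rw [pow_two]
  refine Dvd.dvd.mul_right (Dvd.dvd.mul_left ?_ _) _
  rw [hB']
  exact mul_dvd_mul_left _ hd

lemma Mn.l'ex : ∃ C' : ℤ, A - B = l' * C' ∧ ¬ (l' : ℤ) ∣ C' := by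
  obtain ⟨C', hC'⟩ := h.dC
  refine ⟨C', hC', fun hd => h.ty l' h.pl' h.Yl' ?_⟩
  rw [pow_two]
  refine Dvd.dvd.mul_left ?_ _
  rw [hC']
  exact mul_dvd_mul_left _ hd

end

/-- the trivial class -/
lemma one_sel (A B : ℤ) : InSel A B (1, 1) := by
  refine ⟨squarefree_one, squarefree_one, ?_, fun p hp => ?_⟩
  · obtain ⟨x, y, hy, hxy, s1, s2, s3⟩ := pt_real 0 A B
    refine ⟨x, y, hy, ?_, ?_, ?_⟩
    · rw [hxy, Int.cast_zero, sub_zero]
    · rw [Int.cast_zero, sub_zero] at s1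
      rwa [Int.cast_one, mul_one]
    · rwa [Int.cast_one, mul_one]
  · obtain ⟨x, y, hy, hxy, s1, s2, s3⟩ := pt_pad p 0 A B
    refine ⟨x, y, hy, ?_, ?_, ?_⟩
    · rw [hxy, Int.cast_zero, sub_zero]
    · rw [Int.cast_zero, sub_zero] at s1
      rwa [Int.cast_one, mul_one]
    · rwa [Int.cast_one, mul_one]

/-- divisibility of the squarefree representative, odd valuation -/
lemma dv_sq_odd {p : ℕ} (hp : p.Prime) {t f : ℤ} {t' : ℤ} (ht : t = p * t') (ht' : ¬ (p : ℤ) ∣ t')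
    (hf : Squarefree f) (hs : IsSquare (t * f)) : dv p f = true := by
  have hpi : Prime (p : ℤ) := Nat.prime_iff_prime_int.1 hp
  unfold dv
  rw [decide_eq_true_iff]
  obtain ⟨r, hr⟩ := hs
  rw [ht] at hr
  have h1 : (p : ℤ) ∣ r * r := ⟨t' * f, by rw [← hr]; ring⟩
  obtain ⟨u, rfl⟩ := (hpi.dvd_or_dvd h1).elim id id
  have h2 : t' * f = p * (u * u) := by
    have h3 : (p : ℤ) * (t' * f) = p * (p * (u * u)) := by linear_combination hr
    exact mul_left_cancel₀ hpi.ne_zero h3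
  exact (hpi.dvd_or_dvd ⟨_, h2⟩).resolve_left ht'

/-- divisibility of the squarefree representative, even valuation -/
lemma dv_sq_even {p : ℕ} (hp : p.Prime) {t f : ℤ} (ht : ¬ (p : ℤ) ∣ t)
    (hf : Squarefree f) (hs : IsSquare (t * f)) : dv p f = false := by
  have hpi : Prime (p : ℤ) := Nat.prime_iff_prime_int.1 hp
  unfold dv
  rw [decide_eq_false_iff_not]
  exact nd_of_sq' hpi ht hf hs

/-- the classes of the points of order two -/
lemma Mn.tor {Y : ℕ} {A B : ℤ} {l l' : ℕ} (h : Mn Y A B l l') (v w : Bool) :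
    ∃ t : ℤ × ℤ, InSel A B t ∧ IsSquare ((TT A B v w).1 * t.1) ∧
      IsSquare ((TT A B v w).2 * t.2) ∧ dv l t.1 = w ∧ dv l' t.2 = v := by
  obtain ⟨t, ht, s1, s2⟩ := sel_TT h.A0 h.B0 h.C0 (one_sel A B) v w
  rw [one_mul] at s1 s2
  refine ⟨t, ht, s1, s2, ?_, ?_⟩
  · obtain ⟨B', hB', hB⟩ := h.lex
    have hpi : Prime (l : ℤ) := Nat.prime_iff_prime_int.1 h.pl
    cases v <;> cases w
    · exact dv_sq_even h.pl (t := 1) (fun hd => hpi.not_isUnit (isUnit_of_dvd_one hd)) ht.sq1 s1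
    · refine dv_sq_odd h.pl (t := A * B) (t' := A * B') (by rw [hB']; ring) ?_ ht.sq1 s1
      exact fun hd => (hpi.dvd_or_dvd hd).elim h.lA hB
    · exact dv_sq_even h.pl (t := A) h.lA ht.sq1 s1
    · exact dv_sq_odd h.pl (t := B) (t' := B') hB' hB ht.sq1 s1
  · obtain ⟨C', hC', hC⟩ := h.l'ex
    have hpi : Prime (l' : ℤ) := Nat.prime_iff_prime_int.1 h.pl'
    cases v <;> cases w
    · exact dv_sq_even h.pl' (t := 1) (fun hd => hpi.not_isUnit (isUnit_of_dvd_one hd)) ht.sq2 s2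
    · exact dv_sq_even h.pl' (t := -A) (fun hd => h.l'A ((dvd_neg).1 hd)) ht.sq2 s2
    · refine dv_sq_odd h.pl' (t := A * (A - B)) (t' := A * C') (by rw [hC']; ring) ?_ ht.sq2 s2
      exact fun hd => (hpi.dvd_or_dvd hd).elim h.l'A hC
    · refine dv_sq_odd h.pl' (t := B - A) (t' := -C') (by linear_combination -hC')
        (fun hd => hC ((dvd_neg).1 hd)) ht.sq2 s2

/-- a Selmer class is determined by the ramification at the two special primes -/
lemma Mn.inj {Y : ℕ} {A B : ℤ} {l l' : ℕ} (h : Mn Y A B l l') {e f : ℤ × ℤ}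
    (he : InSel A B e) (hf : InSel A B f) (h1 : dv l e.1 = dv l f.1)
    (h2 : dv l' e.2 = dv l' f.2) : e = f := by
  have hfin := h.fin
  have hsurj : (fun e : ℤ × ℤ => (dv l e.1, dv l' e.2)) '' {e | InSel A B e} = Set.univ := by
    rw [Set.eq_univ_iff_forall]
    rintro ⟨w, v⟩
    obtain ⟨t, ht, -, -, t1, t2⟩ := h.tor v w
    exact ⟨t, ht, Prod.ext t1 t2⟩
  have hinj : Set.InjOn (fun e : ℤ × ℤ => (dv l e.1, dv l' e.2)) {e | InSel A B e} := by
    refine Set.injOn_of_ncard_image_eq ?_ hfin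
    refine le_antisymm (Set.ncard_image_le hfin) ?_
    rw [hsurj, Set.ncard_univ, Nat.card_eq_fintype_card]
    exact h.crd
  exact hinj he hf (Prod.ext h1 h2)

/-- the signs flipped at the two special primes -/
def fl (A B : ℤ) (l l' : ℕ) : ℕ → Bool := fun p => xor (s1 A B p) (decide (p = l ∨ p = l'))

lemma rm_of {A B : ℤ} {s : ℕ → Bool} {p : ℕ} {e : ℤ × ℤ} (h : Lc A B s p e) :
    ((p : ℤ) ∣ B → rm p e = dv p e.1) ∧ ((p : ℤ) ∣ A - B → rm p e = dv p e.2) := by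
  constructor
  · intro hd
    unfold rm
    rw [(h.2.1 hd).1, Bool.or_false]
  · intro hd
    unfold rm
    rw [(h.2.2 hd).1, Bool.false_or]

/-- **The virtual Selmer group with the signs flipped at the two special primes is trivial.** -/
theorem Mn.flip {Y : ℕ} {A B : ℤ} {l l' : ℕ} (h : Mn Y A B l l') (e : ℤ × ℤ)
    (he : InS Y A B (fl A B l l') e) : e = (1, 1) := by
  have hY2 : 2 ≤ Y := by have := h.hY; omega
  have hx : ∀ p : ℕ, p ≠ l → p ≠ l' → (xor (fl A B l l' p) (s1 A B p)) = false := by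
    intro p h1 h2
    unfold fl
    simp [h1, h2]
  have hxl : xor (fl A B l l' l) (s1 A B l) = true := by
    unfold fl
    simp
  have hxl' : xor (fl A B l l' l') (s1 A B l') = true := by
    unfold fl
    simp
  -- the class of the first point of order two
  obtain ⟨t, ht, -, -, t1, t2⟩ := h.tor false true
  have ht' := ins_of_sel hY2 h.ty ht
  have r1 : rm l e = false := by
    have hm := pair_l hY2 h.A0 h.pl h.Yl h.lN he ht' (fun p hp hYp hN hpl => by
      by_cases hpl' : p = l'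
      · subst hpl'
        rw [(rm_of (ht'.lc p hp hYp)).2 h.dC, t2]
        simp
      · rw [hx p hpl hpl']
        simp)
    rw [(rm_of (ht'.lc l h.pl h.Yl)).1 h.dB, t1, hxl] at hm
    simpa using hm
  obtain ⟨u, hu, -, -, u1, u2⟩ := h.tor true false
  have hu' := ins_of_sel hY2 h.ty hu
  have r2 : rm l' e = false := by
    have hm := pair_l hY2 h.A0 h.pl' h.Yl' h.l'N he hu' (fun p hp hYp hN hpl' => by
      by_cases hpl : p = l
      · subst hpl
        rw [(rm_of (hu'.lc p hp hYp)).1 h.dB, u1]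
        simp
      · rw [hx p hpl hpl']
        simp)
    rw [(rm_of (hu'.lc l' h.pl' h.Yl')).2 h.dC, u2, hxl'] at hm
    simpa using hm
  have he1 : InS Y A B (s1 A B) e := he.congr fun p hp hYp hN => by
    by_cases hpl : p = l
    · subst hpl
      exact Or.inr r1
    · by_cases hpl' : p = l'
      · subst hpl'
        exact Or.inr r2
      · left
        have := hx p hpl hpl'
        revert this
        generalize fl A B l l' p = a
        generalize s1 A B p = b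
        revert a b
        decide
  refine h.inj (sel_of_ins h.hY h.ty he1) (one_sel A B) ?_ ?_
  · rw [← (rm_of (he1.lc l h.pl h.Yl)).1 h.dB, r1]
    have hpi : Prime (l : ℤ) := Nat.prime_iff_prime_int.1 h.pl
    unfold dv
    symm
    rw [decide_eq_false_iff_not]
    exact fun hd => hpi.not_isUnit (isUnit_of_dvd_one hd)
  · rw [← (rm_of (he1.lc l' h.pl' h.Yl')).2 h.dC, r2]
    have hpi : Prime (l' : ℤ) := Nat.prime_iff_prime_int.1 h.pl'
    unfold dv
    symm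
    rw [decide_eq_false_iff_not]
    exact fun hd => hpi.not_isUnit (isUnit_of_dvd_one hd)

end Pool.Agent.K1H97.FC
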