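import Pool.Agent.K1H97.CU.Core
import Pool.Agent.Y535.RZ.Pts2
import Pool.Agent.Y105.RZ.Goods

/-!
# Reciprocity with one exceptional prime, and the Selmer group from the local conditions
-/

set_option autoImplicit false

namespace Pool.Agent.K1H97.FC

open Pool.Agent.Y676
open Pool.Agent.W307.SE (Loc)
open Pool.Agent.W262.RK (dv sgn sg0 LL LocH)
open Pool.Agent.W313.BMX (Splits splits_comm splits_mul_sq ram diag even_agree)
open Pool.Agent.Y676.HS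

/-- reciprocity with one exceptional prime -/
lemma recip {e1 e2 f1 f2 : ℤ} (he1 : e1 ≠ 0) (he2 : e2 ≠ 0) (hf1 : f1 ≠ 0) (hf2 : f2 ≠ 0)
    {l : ℕ} [hl : Fact l.Prime]
    (hr : Splits (e1 : ℝ) (f2 : ℝ) ↔ Splits (e2 : ℝ) (f1 : ℝ))
    (hp : ∀ (p : ℕ) [Fact p.Prime], p ≠ l →
      (Splits (e1 : ℚ_[p]) (f2 : ℚ_[p]) ↔ Splits (e2 : ℚ_[p]) (f1 : ℚ_[p]))) :
    Splits (e1 : ℚ_[l]) (f2 : ℚ_[l]) ↔ Splits (e2 : ℚ_[l]) (f1 : ℚ_[l]) := by
  have hR := Pool.Agent.W351.HB.PF.ev_all Pool.Agent.W215.HB.bilo_ Pool.Agent.W864.HBm.bilt_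
    e1 f2 he1 hf2
  have hS := Pool.Agent.W351.HB.PF.ev_all Pool.Agent.W215.HB.bilo_ Pool.Agent.W864.HBm.bilt_
    e2 f1 he2 hf1
  have key := even_agree hS.1 hS.2 (some (⟨l, hl.out⟩ : Nat.Primes)) (R := ram (diag e1) f2) ?_
    (fun _ => hR.2)
  · have key2 : ¬ Splits (e1 : ℚ_[l]) (f2 : ℚ_[l]) ↔ ¬ Splits (e2 : ℚ_[l]) (f1 : ℚ_[l]) := key
    rwa [not_iff_not] at key2
  · intro v hv
    cases v with
    | none =>
      rw [Pool.Agent.W351.HB.PF.mem_none, Pool.Agent.W351.HB.PF.mem_none, not_iff_not]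
      exact hr
    | some p =>
      rw [Pool.Agent.W351.HB.PF.mem_some, Pool.Agent.W351.HB.PF.mem_some, not_iff_not]
      rcases p with ⟨p, hp'⟩
      have : Fact p.Prime := ⟨hp'⟩
      exact hp p (by rintro rfl; exact hv rfl)

/-- the conditions of the virtual Selmer group outside the prime `q` -/
structure InX (Y : ℕ) (A B : ℤ) (s : ℕ → Bool) (q : ℕ) (e : ℤ × ℤ) : Prop where
  sq1 : Squarefree e.1
  sq2 : Squarefree e.2
  re : Loc ℝ A B e.1 e.2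
  sm : ∀ (p : ℕ) [Fact p.Prime], p ≤ Y → Loc ℚ_[p] A B e.1 e.2
  un : ∀ p : ℕ, p.Prime → p ≠ q → Y < p → ¬ (p : ℤ) ∣ A * B * (A - B) →
    ¬ (p : ℤ) ∣ e.1 ∧ ¬ (p : ℤ) ∣ e.2
  lc : ∀ p : ℕ, p.Prime → Y < p → (p : ℤ) ∣ A * B * (A - B) → Lc A B s p e

lemma lc_triv {A B : ℤ} {s : ℕ → Bool} {p : ℕ} {e : ℤ × ℤ} (hN : ¬ (p : ℤ) ∣ A * B * (A - B)) :
    Lc A B s p e := by
  refine ⟨fun h => absurd ?_ hN, fun h => absurd ?_ hN, fun h => absurd ?_ hN⟩
  · exact (h.mul_right _).mul_right _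
  · exact (h.mul_left _).mul_right _
  · exact h.mul_left _

lemma InX.ins {Y : ℕ} {A B : ℤ} {s : ℕ → Bool} {q : ℕ} {e : ℤ × ℤ} (h : InX Y A B s q e)
    (h1 : ¬ (q : ℤ) ∣ e.1) (h2 : ¬ (q : ℤ) ∣ e.2) : InS Y A B s e := by
  refine ⟨h.sq1, h.sq2, h.re, h.sm, fun p hp hYp hN => ?_, fun p hp hYp => ?_⟩
  · by_cases hpq : p = q
    · subst hpq
      exact ⟨h1, h2⟩
    · exact h.un p hp hpq hYp hN
  · by_cases hN : (p : ℤ) ∣ A * B * (A - B)
    · exact h.lc p hp hYp hN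
    · exact lc_triv hN

lemma InX.of_ins {Y : ℕ} {A B : ℤ} {s : ℕ → Bool} {e : ℤ × ℤ} (h : InS Y A B s e) (q : ℕ) :
    InX Y A B s q e :=
  ⟨h.sq1, h.sq2, h.re, h.sm, fun p hp _ => h.un p hp, fun p hp hYp _ => h.lc p hp hYp⟩

/-- the pairing at the exceptional prime vanishes -/
lemma pair_x {Y : ℕ} {A B : ℤ} (hY : 2 ≤ Y) (hA : A ≠ 0) {s s' : ℕ → Bool} {q : ℕ}
    [hq : Fact q.Prime] {e f : ℤ × ℤ} (he : InX Y A B s q e) (hf : InX Y A B s' q f)
    (h : ∀ p : ℕ, p.Prime → Y < p → (p : ℤ) ∣ A * B * (A - B) → p ≠ q →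
      (rm p e && rm p f && xor (s p) (s' p)) = false) :
    Splits (e.1 : ℚ_[q]) (f.2 : ℚ_[q]) ↔ Splits (e.2 : ℚ_[q]) (f.1 : ℚ_[q]) := by
  have e1 := he.sq1.ne_zero
  have e2 := he.sq2.ne_zero
  have f1 := hf.sq1.ne_zero
  have f2 := hf.sq2.ne_zero
  refine recip e1 e2 f1 f2 ?_ fun p hp hpq => ?_
  · exact iso_loc bl_real (by exact_mod_cast hA) (by exact_mod_cast e1) (by exact_mod_cast e2)
      (by exact_mod_cast f1) (by exact_mod_cast f2) he.re hf.re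
  · by_cases hpY : p ≤ Y
    · exact iso_loc (bl_padic p) (by exact_mod_cast hA) (by exact_mod_cast e1)
        (by exact_mod_cast e2) (by exact_mod_cast f1) (by exact_mod_cast f2) (he.sm p hpY)
        (hf.sm p hpY)
    · have hpY' : Y < p := by omega
      have hp2 : p ≠ 2 := by omega
      by_cases hpN : (p : ℤ) ∣ A * B * (A - B)
      · refine (pair_lc (p := p) hp2 he.sq1 he.sq2 hf.sq1 hf.sq2 (he.lc p hp.out hpY' hpN)
          (hf.lc p hp.out hpY' hpN) hpN).2 ?_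
        exact h p hp.out hpY' hpN hpq
      · obtain ⟨a1, a2⟩ := he.un p hp.out hpq hpY' hpN
        obtain ⟨b1, b2⟩ := hf.un p hp.out hpq hpY' hpN
        exact iff_of_true (splits_unit hp2 a1 b2) (splits_unit hp2 a2 b1)

/-- the pairing of two elements of virtual Selmer groups -/
lemma pair_l {Y : ℕ} {A B : ℤ} (hY : 2 ≤ Y) (hA : A ≠ 0) {s s' : ℕ → Bool} {l : ℕ}
    (hl : l.Prime) (hYl : Y < l) (hlN : (l : ℤ) ∣ A * B * (A - B)) {e f : ℤ × ℤ}
    (he : InS Y A B s e) (hf : InS Y A B s' f)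
    (h : ∀ p : ℕ, p.Prime → Y < p → (p : ℤ) ∣ A * B * (A - B) → p ≠ l →
      (rm p e && rm p f && xor (s p) (s' p)) = false) :
    (rm l e && rm l f && xor (s l) (s' l)) = false := by
  have : Fact l.Prime := ⟨hl⟩
  have key := pair_x hY hA (InX.of_ins he l) (InX.of_ins hf l) h
  exact (pair_lc (p := l) (by omega) he.sq1 he.sq2 hf.sq1 hf.sq2 (he.lc l hl hYl)
      (hf.lc l hl hYl) hlN).1 key

/-- the signs of the curve itself -/
def s1 (A B : ℤ) : ℕ → Bool := sQ A B 1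

/-- the local conditions of the curve at a large bad prime give a local point -/
lemma loc_of_lc {A B : ℤ} {p : ℕ} [hp : Fact p.Prime] (h7 : 7 ≤ p)
    (h1 : ¬ (p : ℤ) ^ 2 ∣ A * B * (A - B)) (hN : (p : ℤ) ∣ A * B * (A - B)) {e : ℤ × ℤ}
    (he1 : Squarefree e.1) (he2 : Squarefree e.2) (h : Lc A B (s1 A B) p e) :
    Loc ℚ_[p] A B e.1 e.2 := by
  have hpi : Prime (p : ℤ) := Nat.prime_iff_prime_int.1 hp.out
  have two : ∀ {u v : ℤ}, (p : ℤ) ∣ u → (p : ℤ) ∣ v → (p : ℤ) ^ 2 ∣ u * v := by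
    intro u v hu hv
    rw [pow_two]
    exact mul_dvd_mul hu hv
  have h3 : (p : ℤ) ∣ A ∨ (p : ℤ) ∣ B ∨ (p : ℤ) ∣ A - B := by
    rcases hpi.dvd_or_dvd hN with h | h
    · rcases hpi.dvd_or_dvd h with h | h
      · exact Or.inl h
      · exact Or.inr (Or.inl h)
    · exact Or.inr (Or.inr h)
  rcases h3 with hA | hB | hC
  · have hB : ¬ (p : ℤ) ∣ B := fun hB => h1 ((two hA hB).mul_right _)
    have hA2 : ¬ (p : ℤ) ^ 2 ∣ A := fun h => h1 ((h.mul_right _).mul_right _)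
    refine Pool.Agent.Y535.RZ.pt0 h7 hA hA2 hB he1 he2 ?_
    unfold Pool.Agent.W307.FK.LR
    rw [if_pos rfl]
    obtain ⟨a1, a2⟩ := h.1 hA
    refine ⟨a1, ?_⟩
    rw [a2]
    unfold s1 sQ
    rw [if_pos hA, one_mul]
  · have hA : ¬ (p : ℤ) ∣ A := fun hA => h1 ((two hA hB).mul_right _)
    have hB2 : ¬ (p : ℤ) ^ 2 ∣ B := fun h => h1 ((h.mul_left _).mul_right _)
    refine Pool.Agent.Y535.RZ.pt1 h7 hB hB2 hA he1 ?_
    unfold Pool.Agent.W307.FK.LR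
    rw [if_neg (by decide), if_pos rfl]
    obtain ⟨a1, a2⟩ := h.2.1 hB
    refine ⟨a1, ?_⟩
    rw [a2]
    unfold s1 sQ
    rw [if_neg hA, if_pos hB, one_mul]
  · have hA : ¬ (p : ℤ) ∣ A := fun hA => h1 (by
      have hB : (p : ℤ) ∣ B := by
        have : B = A - (A - B) := by ring
        rw [this]
        exact dvd_sub hA hC
      exact (two hA hB).mul_right _)
    have hB : ¬ (p : ℤ) ∣ B := fun hB => hA (by
      have : A = (A - B) + B := by ring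
      rw [this]
      exact dvd_add hC hB)
    have hC2 : ¬ (p : ℤ) ^ 2 ∣ A - B := fun h => h1 (h.mul_left _)
    refine Pool.Agent.Y535.RZ.pt2 h7 hC hC2 hA he2 ?_
    unfold Pool.Agent.W307.FK.LR
    rw [if_neg (by decide), if_neg (by decide)]
    obtain ⟨a1, a2⟩ := h.2.2 hC
    refine ⟨a1, ?_⟩
    rw [a2]
    unfold s1 sQ
    rw [if_neg hA, if_neg hB, one_mul]

/-- the virtual Selmer group with the signs of the curve is the Selmer group -/
lemma sel_of_ins {Y : ℕ} {A B : ℤ} (hY : 7 ≤ Y) (h1 : Ty1 Y A B) {e : ℤ × ℤ}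
    (h : InS Y A B (s1 A B) e) : InSel A B e := by
  refine ⟨h.sq1, h.sq2, h.re, fun p hp => ?_⟩
  by_cases hpY : p ≤ Y
  · exact h.sm p hpY
  · have hpY' : Y < p := by omega
    by_cases hN : (p : ℤ) ∣ A * B * (A - B)
    · exact loc_of_lc (by omega) (h1 p hp.out hpY') hN h.sq1 h.sq2 (h.lc p hp.out hpY')
    · obtain ⟨a1, a2⟩ := h.un p hp.out hpY' hN
      refine Pool.Agent.Y105.RZ.GOODS p A B e.1 e.2 ?_ a1 a2
      intro h
      have hpi : Prime (p : ℤ) := Nat.prime_iff_prime_int.1 hp.out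
      have e5 : 2 * A * B * (A - B) = 2 * (A * B * (A - B)) := by ring
      rw [e5] at h
      rcases hpi.dvd_or_dvd h with h | h
      · have h6 : p ∣ 2 := by exact_mod_cast h
        have := Nat.le_of_dvd (by norm_num) h6
        omega
      · exact hN h

lemma ins_of_sel {Y : ℕ} {A B : ℤ} (hY : 2 ≤ Y) (h1 : Ty1 Y A B) {e : ℤ × ℤ}
    (h : InSel A B e) : InS Y A B (s1 A B) e := by
  refine ⟨h.sq1, h.sq2, h.re, fun p hp _ => h.lo p, fun p hp hYp hN => ?_, fun p hp hYp => ?_⟩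
  · have : Fact p.Prime := ⟨hp⟩
    have hpi : Prime (p : ℤ) := Nat.prime_iff_prime_int.1 hp
    refine goodp p A B e.1 e.2 ?_ h.sq1 h.sq2 (h.lo p)
    intro h
    have e5 : 2 * A * B * (A - B) = 2 * (A * B * (A - B)) := by ring
    rw [e5] at h
    rcases hpi.dvd_or_dvd h with h | h
    · have h6 : p ∣ 2 := by exact_mod_cast h
      have := Nat.le_of_dvd (by norm_num) h6
      omega
    · exact hN h
  · have : Fact p.Prime := ⟨hp⟩
    by_cases hN : (p : ℤ) ∣ A * B * (A - B)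
    · refine lc_of_loc (q := 1) (by omega) ?_ (h1 p hp hYp) h.sq1 h.sq2 ?_
      · intro h
        exact hp.one_lt.ne' (by exact_mod_cast Int.eq_one_of_dvd_one (by positivity) h)
      · rw [one_mul, one_mul]
        exact h.lo p
    · exact lc_triv hN

end Pool.Agent.K1H97.FC
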